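import Mathlib

set_option autoImplicit false

/-! # The blocking lemma at strand level

A graph all of whose vertices have at most two neighbours (strand pieces of a resolved configuration).
`ends_two`: a component has at most two ends. `block`: two configurations which agree outside a set `I`
and whose only crossings of the boundary of `I` lead to the same outer vertex `b`; then the strand which
starts at a point of `I` arrives at the same outer end in both configurations. -/

namespace Pool.Agent.H99.W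

open SimpleGraph

variable {α : Type*}

/-- every vertex has at most two neighbours -/
def Deg2 (G : SimpleGraph α) : Prop :=
  ∀ v a b c, G.Adj v a → G.Adj v b → G.Adj v c → a = b ∨ a = c ∨ b = c

/-- the vertex has at most one neighbour -/
def IsEnd (G : SimpleGraph α) (x : α) : Prop := ∀ a b, G.Adj x a → G.Adj x b → a = b

/-- `G` outside `I` -/
def off (G : SimpleGraph α) (I : Set α) : SimpleGraph α where
  Adj u v := G.Adj u v ∧ u ∉ I ∧ v ∉ I
  symm := ⟨fun _ _ h => ⟨h.1.symm, h.2.2, h.2.1⟩⟩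
  loopless := ⟨fun u h => G.loopless.irrefl u h.1⟩

lemma off_adj {G : SimpleGraph α} {I : Set α} {u v : α} :
    (off G I).Adj u v ↔ G.Adj u v ∧ u ∉ I ∧ v ∉ I := Iff.rfl

/-- a component of a graph of degree at most two has at most two ends -/
theorem ends_two {G : SimpleGraph α} (hd : Deg2 G) {x y w : α} (hx : IsEnd G x) (hy : IsEnd G y)
    (hw : IsEnd G w) (hxy : G.Reachable x y) (hxw : G.Reachable x w) (hne : x ≠ y) :
    w = x ∨ w = y := by
  classical
  obtain ⟨p, hp⟩ := hxy.exists_isPath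
  have hinj : ∀ i j, i ≤ p.length → j ≤ p.length → p.getVert i = p.getVert j → i = j :=
    fun i j hi hj h => hp.getVert_injOn hi hj h
  have hadj : ∀ i, i < p.length → G.Adj (p.getVert i) (p.getVert (i + 1)) :=
    fun i hi => p.adj_getVert_succ hi
  have hlen : 0 < p.length := by
    rcases Nat.eq_zero_or_pos p.length with h | h
    · exact absurd (SimpleGraph.Walk.eq_of_length_eq_zero h) hne
    · exact h
  have h0 : p.getVert 0 = x := p.getVert_zero
  have h1 : p.getVert p.length = y := p.getVert_length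
  have hcl : ∀ v v', (∃ i, i ≤ p.length ∧ p.getVert i = v) → G.Adj v v' →
      ∃ i, i ≤ p.length ∧ p.getVert i = v' := by
    rintro v v' ⟨i, hi, rfl⟩ ha
    rcases Nat.eq_zero_or_pos i with h | h
    · subst h
      refine ⟨1, hlen, ?_⟩
      have h2 := hadj 0 hlen
      rw [h0] at ha h2
      exact hx _ _ h2 ha
    · rcases Nat.lt_or_ge i p.length with h3 | h3
      · have h4 := hadj i h3
        have h5 := (hadj (i - 1) (by omega)).symm
        rw [Nat.sub_add_cancel h] at h5
        rcases hd _ _ _ _ h5 h4 ha with h6 | h6 | h6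
        · exfalso
          have := hinj _ _ (by omega) (by omega) h6
          omega
        · exact ⟨i - 1, by omega, h6⟩
        · exact ⟨i + 1, by omega, h6⟩
      · have h4 : i = p.length := by omega
        subst h4
        have h5 := (hadj (p.length - 1) (by omega)).symm
        rw [Nat.sub_add_cancel h] at h5
        rw [h1] at ha h5
        exact ⟨p.length - 1, by omega, hy _ _ h5 ha⟩
  have hall : ∀ v, G.Reachable x v → ∃ i, i ≤ p.length ∧ p.getVert i = v := by
    intro v hv
    obtain ⟨q⟩ := hv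
    have : ∀ (a b : α) (q : G.Walk a b), (∃ i, i ≤ p.length ∧ p.getVert i = a) →
        ∃ i, i ≤ p.length ∧ p.getVert i = b := by
      intro a b q
      induction q with
      | nil => exact id
      | cons h _ ih => exact fun ha => ih (hcl _ _ ha h)
    exact this x v q ⟨0, Nat.zero_le _, h0⟩
  obtain ⟨i, hi, rfl⟩ := hall w hxw
  rcases Nat.eq_zero_or_pos i with h | h
  · left; rw [h, h0]
  · rcases Nat.lt_or_ge i p.length with h3 | h3
    · exfalso
      have h4 := hadj i h3
      have h5 := (hadj (i - 1) (by omega)).symm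
      rw [Nat.sub_add_cancel h] at h5
      have := hinj _ _ (by omega) (by omega) (hw _ _ h5 h4)
      omega
    · right
      rw [show i = p.length by omega, h1]

/-- the last exit -/
lemma last_exit {G : SimpleGraph α} {I : Set α} {b z x : α}
    (hI : ∀ u v, u ∈ I → v ∉ I → G.Adj u v → v = b) (hz : z ∈ I) (hx : x ∉ I)
    (h : G.Reachable z x) : ∃ u ∈ I, G.Adj u b ∧ b ∉ I ∧ (off G I).Reachable b x := by
  obtain ⟨q⟩ := h
  have key : ∀ (a c : α) (q : G.Walk a c), c ∉ I →
      (a ∈ I → ∃ u ∈ I, G.Adj u b ∧ b ∉ I ∧ (off G I).Reachable b c) ∧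
      (a ∉ I → (off G I).Reachable a c ∨
        ∃ u ∈ I, G.Adj u b ∧ b ∉ I ∧ (off G I).Reachable b c) := by
    intro a c q
    induction q with
    | nil => exact fun hc => ⟨fun h => absurd h hc, fun _ => Or.inl (Reachable.refl _)⟩
    | @cons u v w h _ ih =>
      intro hc
      obtain ⟨i1, i2⟩ := ih hc
      constructor
      · intro hu
        by_cases hv : v ∈ I
        · exact i1 hv
        · have hvb := hI u v hu hv h
          subst hvb
          rcases i2 hv with h1 | h1
          · exact ⟨u, hu, h, hv, h1⟩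
          · exact h1
      · intro hu
        by_cases hv : v ∈ I
        · exact Or.inr (i1 hv)
        · rcases i2 hv with h1 | h1
          · left
            have h2 : (off G I).Adj u v := ⟨h, hu, hv⟩
            exact h2.reachable.trans h1
          · exact Or.inr h1
  exact (key z x q hx).1 hz

lemma Deg2.off {G : SimpleGraph α} (h : Deg2 G) (I : Set α) : Deg2 (off G I) :=
  fun v a b c ha hb hc => h v a b c ha.1 hb.1 hc.1

lemma IsEnd.off {G : SimpleGraph α} {x : α} (h : IsEnd G x) (I : Set α) : IsEnd (off G I) x :=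
  fun a b ha hb => h a b ha.1 hb.1

/-- **Blocking lemma.** Two configurations which agree outside `I` and whose crossings of the boundary
of `I` lead to the same outer vertex `b`: strands from `I` arrive at the same outer end. -/
theorem block {G G' : SimpleGraph α} {I : Set α} (hd : Deg2 G)
    (hag : ∀ u v, u ∉ I → v ∉ I → (G.Adj u v ↔ G'.Adj u v)) {b z z' x x' : α}
    (hI : ∀ u v, u ∈ I → v ∉ I → G.Adj u v → v = b)
    (hI' : ∀ u v, u ∈ I → v ∉ I → G'.Adj u v → v = b)
    (hz : z ∈ I) (hz' : z' ∈ I) (hx : x ∉ I) (hx' : x' ∉ I) (ex : IsEnd G x) (ex' : IsEnd G' x')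
    (h : G.Reachable z x) (h' : G'.Reachable z' x') : x = x' := by
  have hoff : off G' I = off G I := by
    ext u v
    constructor
    · exact fun k => ⟨(hag u v k.2.1 k.2.2).2 k.1, k.2⟩
    · exact fun k => ⟨(hag u v k.2.1 k.2.2).1 k.1, k.2⟩
  obtain ⟨u, hu, hub, hb, hr⟩ := last_exit hI hz hx h
  obtain ⟨u', hu', hub', -, hr'⟩ := last_exit hI' hz' hx' h'
  rw [hoff] at hr'
  have eb : IsEnd (off G I) b := by
    intro a c ha hc
    rcases hd b u a c hub.symm ha.1 hc.1 with h1 | h1 | h1
    · exact absurd (h1 ▸ hu) ha.2.2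
    · exact absurd (h1 ▸ hu) hc.2.2
    · exact h1
  have exo : IsEnd (off G I) x := ex.off I
  have exo' : IsEnd (off G I) x' := by
    rw [← hoff]; exact ex'.off I
  by_cases h1 : b = x
  · subst h1
    -- `b` is an end of `G`, hence isolated outside `I`
    by_contra hne
    obtain ⟨q⟩ := hr'
    cases q with
    | nil => exact hne rfl
    | cons h2 _ =>
      have := ex _ _ hub.symm h2.1
      exact h2.2.2 (this ▸ hu)
  · rcases ends_two (hd.off I) eb exo exo' hr hr' h1 with h2 | h2
    · -- `x' = b`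
      by_contra hne
      subst h2
      obtain ⟨q⟩ := hr
      cases q with
      | nil => exact h1 rfl
      | cons h3 _ =>
        have h4 := (hag _ _ h3.2.1 h3.2.2).1 h3.1
        have := ex' _ _ hub'.symm h4
        exact h3.2.2 (this ▸ hu')
    · exact h2.symm

/-! ### Contraction of regions -/

/-- `G` inside `I` -/
def ins (G : SimpleGraph α) (I : Set α) : SimpleGraph α where
  Adj u v := G.Adj u v ∧ u ∈ I ∧ v ∈ I
  symm := ⟨fun _ _ h => ⟨h.1.symm, h.2.2, h.2.1⟩⟩
  loopless := ⟨fun u h => G.loopless.irrefl u h.1⟩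

lemma ins_le (G : SimpleGraph α) (I : Set α) : ins G I ≤ G := fun _ _ h => h.1

lemma off_le (G : SimpleGraph α) (I : Set α) : off G I ≤ G := fun _ _ h => h.1

lemma ins_mem {G : SimpleGraph α} {I : Set α} {u v : α} (hu : u ∈ I)
    (h : (ins G I).Reachable u v) : v ∈ I := by
  obtain ⟨p⟩ := h
  induction p with
  | nil => exact hu
  | cons h _ ih => exact ih h.2.2

/-- passage through `U` -/
def InR (G : SimpleGraph α) (U : Set α) (b c : α) : Prop :=
  ∃ u ∈ U, ∃ v ∈ U, G.Adj b u ∧ (ins G U).Reachable u v ∧ G.Adj v c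

/-- exit from `U` -/
def ExR (G : SimpleGraph α) (U : Set α) (z b : α) : Prop :=
  ∃ v ∈ U, (ins G U).Reachable z v ∧ G.Adj v b

/-- two configurations with the same passages through `U` -/
theorem reach_contract {G G' : SimpleGraph α} {U : Set α}
    (hag : ∀ u v, u ∉ U → v ∉ U → G.Adj u v → G'.Reachable u v)
    (hR : ∀ b c, b ∉ U → c ∉ U → InR G U b c → G'.Reachable b c) {x y : α} (hx : x ∉ U)
    (hy : y ∉ U) (h : G.Reachable x y) : G'.Reachable x y := by
  obtain ⟨p⟩ := h
  have key : ∀ (a y : α) (p : G.Walk a y), y ∉ U → (a ∉ U → G'.Reachable a y) ∧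
      (a ∈ U → ∀ b, b ∉ U → (∃ u ∈ U, G.Adj b u ∧ (ins G U).Reachable u a) →
        G'.Reachable b y) := by
    intro a y p
    induction p with
    | nil => exact fun hy => ⟨fun _ => Reachable.refl _, fun h => absurd h hy⟩
    | @cons a v w h _ ih =>
      intro hw
      obtain ⟨i1, i2⟩ := ih hw
      constructor
      · intro ha
        by_cases hv : v ∈ U
        · exact i2 hv a ha ⟨v, hv, h, Reachable.refl _⟩
        · exact (hag a v ha hv h).trans (i1 hv)
      · rintro ha b hb ⟨u, hu, hbu, hua⟩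
        by_cases hv : v ∈ U
        · refine i2 hv b hb ⟨u, hu, hbu, hua.trans ?_⟩
          have h2 : (ins G U).Adj a v := ⟨h, ha, hv⟩
          exact h2.reachable
        · exact (hR b v hb hv ⟨u, hu, a, ha, hbu, hua, h⟩).trans (i1 hv)
  exact (key x y p hy).1 hx

/-- the same from a point of `U` -/
theorem reach_contract_from {G G' : SimpleGraph α} {U : Set α}
    (hag : ∀ u v, u ∉ U → v ∉ U → G.Adj u v → G'.Reachable u v)
    (hR : ∀ b c, b ∉ U → c ∉ U → InR G U b c → G'.Reachable b c) {z z' y : α} (hz : z ∈ U)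
    (hE : ∀ b, b ∉ U → ExR G U z b → G'.Reachable z' b)
    (hy : y ∉ U) (h : G.Reachable z y) : G'.Reachable z' y := by
  obtain ⟨p⟩ := h
  have key : ∀ (a y : α) (p : G.Walk a y), y ∉ U → (ins G U).Reachable z a → a ∈ U →
      G'.Reachable z' y := by
    intro a y p
    induction p with
    | nil => exact fun hy _ h => absurd h hy
    | @cons a v w h q ih =>
      intro hw hza ha
      by_cases hv : v ∈ U
      · refine ih hw (hza.trans ?_) hv
        have h2 : (ins G U).Adj a v := ⟨h, ha, hv⟩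
        exact h2.reachable
      · exact (hE v hv ⟨a, ha, hza, h⟩).trans (reach_contract hag hR hv hw ⟨q⟩)
  exact key z y p hy (Reachable.refl _) hz

/-- **exit lemma**: in a finite region without other ends the strand of an end leaves the region. -/
theorem leave [Finite α] {G : SimpleGraph α} (hd : Deg2 G) {I : Set α} {z : α} (hz : z ∈ I)
    (ez : IsEnd G z) (ha : ∃ a, G.Adj z a) (hI : ∀ w ∈ I, w ≠ z → ¬ IsEnd G w) :
    ∃ v ∈ I, ∃ b, b ∉ I ∧ (ins G I).Reachable z v ∧ G.Adj v b := by
  classical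
  have : Fintype α := Fintype.ofFinite α
  by_contra hno
  push Not at hno
  have key : ∀ n : ℕ, ∃ (w : α) (p : (ins G I).Walk z w), p.IsPath ∧ p.length = n := by
    intro n
    induction n with
    | zero => exact ⟨z, Walk.nil, Walk.IsPath.nil, rfl⟩
    | succ n ih =>
      obtain ⟨w, p, hp, hn⟩ := ih
      have hw : w ∈ I := ins_mem hz ⟨p⟩
      have hin : ∀ a, G.Adj w a → a ∈ I := by
        intro a h
        by_contra h1
        exact hno w hw a h1 ⟨p⟩ h
      have hinj : ∀ i j, i ≤ p.length → j ≤ p.length → p.getVert i = p.getVert j → i = j :=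
        fun i j hi hj h => hp.getVert_injOn hi hj h
      have hadj : ∀ i, i < p.length → G.Adj (p.getVert i) (p.getVert (i + 1)) :=
        fun i hi => (p.adj_getVert_succ hi).1
      have h0 : p.getVert 0 = z := p.getVert_zero
      have h1 : p.getVert p.length = w := p.getVert_length
      -- a neighbour of `w` which is not the previous vertex
      have hnb : ∃ a, G.Adj w a ∧ (0 < p.length → a ≠ p.getVert (p.length - 1)) := by
        rcases Nat.eq_zero_or_pos p.length with h2 | h2
        · obtain ⟨a, ha⟩ := ha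
          have : w = z := by rw [← h1, h2, h0]
          exact ⟨a, this ▸ ha, fun h => absurd h2 h.ne'⟩
        · have hwz : w ≠ z := by
            intro h3
            have := hinj p.length 0 le_rfl (Nat.zero_le _) (by rw [h1, h0, h3])
            omega
          have h4 := hI w hw hwz
          unfold IsEnd at h4
          push Not at h4
          obtain ⟨a, b, ha, hb, hab⟩ := h4
          by_cases h5 : a = p.getVert (p.length - 1)
          · exact ⟨b, hb, fun _ h6 => hab (h5.trans h6.symm)⟩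
          · exact ⟨a, ha, fun _ => h5⟩
      obtain ⟨a, hwa, hne⟩ := hnb
      have haI := hin a hwa
      have hns : a ∉ p.support := by
        intro hs
        obtain ⟨i, hi, hil⟩ := Walk.mem_support_iff_exists_getVert.1 hs
        rcases Nat.lt_or_ge i p.length with h2 | h2
        · have h3 := hadj i h2
          rw [hi] at h3
          have hne' := hne (by omega)
          rcases Nat.eq_zero_or_pos i with h4 | h4
          · subst h4
            rw [h0] at hi
            rw [← hi] at h3 hwa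
            have h5 := ez _ _ h3 hwa.symm
            have h6 := hinj 1 p.length (by omega) le_rfl (by rw [h1]; exact h5)
            apply hne'
            rw [← hi, ← h6, Nat.sub_self, h0]
          · have h5 := (hadj (i - 1) (by omega)).symm
            rw [Nat.sub_add_cancel h4, hi] at h5
            rcases hd _ _ _ _ h5 h3 hwa.symm with h6 | h6 | h6
            · have := hinj _ _ (by omega) (by omega) h6
              omega
            · have := hinj (i - 1) p.length (by omega) le_rfl (by rw [h1]; exact h6)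
              omega
            · have := hinj (i + 1) p.length (by omega) le_rfl (by rw [h1]; exact h6)
              apply hne'
              rw [← hi, show i = p.length - 1 by omega]
        · have h3 : i = p.length := by omega
          rw [h3, h1] at hi
          exact G.loopless.irrefl _ (hi ▸ hwa)
      have hadj' : (ins G I).Adj w a := ⟨hwa, hw, haI⟩
      refine ⟨a, p.concat hadj', ?_, ?_⟩
      · exact hp.concat hns hadj'
      · rw [Walk.length_concat, hn]
  obtain ⟨w, p, hp, hn⟩ := key (Fintype.card α)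
  have := hp.length_lt
  omega

/-- **passage lemma**: a strand which enters a region without ends leaves it through another edge. -/
theorem pass [Finite α] {G : SimpleGraph α} (hd : Deg2 G) {I : Set α} {u b : α} (hu : u ∈ I)
    (hb : b ∉ I) (hub : G.Adj u b) (hI : ∀ w ∈ I, ¬ IsEnd G w) :
    ∃ v ∈ I, ∃ c, c ∉ I ∧ (ins G I).Reachable u v ∧ G.Adj v c ∧ (v ≠ u ∨ c ≠ b) := by
  set G' : SimpleGraph α := G.deleteEdges {s(u, b)} with hG'
  have hadj : ∀ x y, G'.Adj x y ↔ G.Adj x y ∧ ¬ (x = u ∧ y = b ∨ x = b ∧ y = u) := by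
    intro x y
    rw [hG', deleteEdges_adj, Set.mem_singleton_iff, Sym2.eq_iff]
  have hd' : Deg2 G' := fun v a b c ha hb hc =>
    hd v a b c ((hadj _ _).1 ha).1 ((hadj _ _).1 hb).1 ((hadj _ _).1 hc).1
  have hne : u ≠ b := fun h => hb (h ▸ hu)
  have h2 := hI u hu
  unfold IsEnd at h2
  push Not at h2
  obtain ⟨p, q, hp, hq, hpq⟩ := h2
  have hother : ∃ a, G.Adj u a ∧ a ≠ b := by
    by_cases h : p = b
    · exact ⟨q, hq, fun h1 => hpq (h.trans h1.symm)⟩
    · exact ⟨p, hp, h⟩
  obtain ⟨a, hua, hab⟩ := hother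
  have ez : IsEnd G' u := by
    intro x y hx hy
    obtain ⟨hx1, hx2⟩ := (hadj _ _).1 hx
    obtain ⟨hy1, hy2⟩ := (hadj _ _).1 hy
    rcases hd u x y b hx1 hy1 hub with h | h | h
    · exact h
    · exact absurd (Or.inl ⟨rfl, h⟩) hx2
    · exact absurd (Or.inl ⟨rfl, h⟩) hy2
  have hI' : ∀ w ∈ I, w ≠ u → ¬ IsEnd G' w := by
    intro w hw hwu h
    refine hI w hw fun x y hx hy => h x y ((hadj _ _).2 ⟨hx, ?_⟩) ((hadj _ _).2 ⟨hy, ?_⟩)
    · rintro (⟨h1, -⟩ | ⟨h1, -⟩)
      · exact hwu h1
      · exact hb (h1 ▸ hw)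
    · rintro (⟨h1, -⟩ | ⟨h1, -⟩)
      · exact hwu h1
      · exact hb (h1 ▸ hw)
  obtain ⟨v, hv, c, hc, hr, hvc⟩ := leave hd' hu ez
    ⟨a, (hadj _ _).2 ⟨hua, by rintro (⟨-, h⟩ | ⟨h, -⟩); exacts [hab h, hne h]⟩⟩ hI'
  obtain ⟨h3, h4⟩ := (hadj _ _).1 hvc
  have hle : ins G' I ≤ ins G I := fun x y h => ⟨((hadj x y).1 h.1).1, h.2⟩
  refine ⟨v, hv, c, hc, hr.mono hle, h3, ?_⟩
  by_contra h5
  push Not at h5
  exact h4 (Or.inl h5)

/-! ### Two matchings -/

/-- Link structure: `σ` joins the ends of the rooms (strands in the rooms), `θ` joins the ends through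
the gaps (outside of the rooms). Both are involutions; `θ e = e` : far ends and `z`; ends with
`σ e = e` and `θ e = e` are inactive. -/
structure Lk (α : Type*) where
  σ : α → α
  θ : α → α
  hσ : ∀ e, σ (σ e) = e
  hθ : ∀ e, θ (θ e) = e

namespace Lk

variable (L L' : Lk α)

/-- the graph of the links -/
def G : SimpleGraph α where
  Adj u v := u ≠ v ∧ (L.σ u = v ∨ L.θ u = v)
  symm := ⟨by
    rintro u v ⟨h, h1 | h1⟩
    · exact ⟨h.symm, Or.inl (by rw [← h1, L.hσ])⟩
    · exact ⟨h.symm, Or.inr (by rw [← h1, L.hθ])⟩⟩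
  loopless := ⟨fun u h => h.1 rfl⟩

lemma adj {u v : α} : L.G.Adj u v ↔ u ≠ v ∧ (L.σ u = v ∨ L.θ u = v) := Iff.rfl

lemma deg2 : Deg2 L.G := by
  rintro v a b c ⟨-, ha⟩ ⟨-, hb⟩ ⟨-, hc⟩
  rcases ha with rfl | rfl <;> rcases hb with rfl | rfl <;> rcases hc with rfl | rfl <;> simp

lemma adj_σ {u : α} (h : L.σ u ≠ u) : L.G.Adj u (L.σ u) := ⟨fun h1 => h h1.symm, Or.inl rfl⟩

lemma adj_θ {u : α} (h : L.θ u ≠ u) : L.G.Adj u (L.θ u) := ⟨fun h1 => h h1.symm, Or.inr rfl⟩

lemma reach_σ (u : α) : L.G.Reachable u (L.σ u) := by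
  by_cases h : L.σ u = u
  · rw [h]
  · exact (L.adj_σ h).reachable

lemma reach_θ (u : α) : L.G.Reachable u (L.θ u) := by
  by_cases h : L.θ u = u
  · rw [h]
  · exact (L.adj_θ h).reachable

lemma isEnd_of_θ {x : α} (h : L.θ x = x) : IsEnd L.G x := by
  rintro a b ⟨ha, ha'⟩ ⟨hb, hb'⟩
  rw [h] at ha' hb'
  rcases ha' with h1 | h1
  · rcases hb' with h2 | h2
    · exact h1.symm.trans h2
    · exact absurd h2 hb
  · exact absurd h1 ha

lemma isEnd_of_σ {x : α} (h : L.σ x = x) : IsEnd L.G x := by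
  rintro a b ⟨ha, ha'⟩ ⟨hb, hb'⟩
  rw [h] at ha' hb'
  rcases ha' with h1 | h1
  · exact absurd h1 ha
  · rcases hb' with h2 | h2
    · exact absurd h2 hb
    · exact h1.symm.trans h2

/-- two different neighbours -/
lemma not_isEnd {x : α} (h1 : L.σ x ≠ x) (h2 : L.θ x ≠ x) (h3 : L.σ x ≠ L.θ x) : ¬ IsEnd L.G x :=
  fun h => h3 (h _ _ (L.adj_σ h1) (L.adj_θ h2))

lemma isEnd_iff {x : α} : IsEnd L.G x ↔ (L.σ x = x ∨ L.θ x = x ∨ L.σ x = L.θ x) := by
  constructor
  · intro h
    by_contra h1
    push Not at h1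
    exact L.not_isEnd h1.1 h1.2.1 h1.2.2 h
  · rintro (h | h | h)
    · exact L.isEnd_of_σ h
    · exact L.isEnd_of_θ h
    · rintro a b ⟨ha, ha'⟩ ⟨hb, hb'⟩
      rw [← h] at ha' hb'
      rcases ha' with h1 | h1 <;> rcases hb' with h2 | h2 <;> exact h1.symm.trans h2

open Classical in
/-- the other end of the strand which starts at `z` -/
noncomputable def far (z : α) : α :=
  if h : ∃ x, x ≠ z ∧ (L.σ x = x ∨ L.θ x = x) ∧ L.G.Reachable z x then h.choose else z

/-- a strand which starts at an end arrives at another end -/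
lemma exists_far [Finite α] {z : α} (hz : L.θ z = z) (hz' : L.σ z ≠ z) :
    ∃ x, x ≠ z ∧ (L.σ x = x ∨ L.θ x = x) ∧ L.G.Reachable z x := by
  by_contra hno
  push Not at hno
  have hI : ∀ w ∈ {w | L.G.Reachable z w}, w ≠ z → ¬ IsEnd L.G w := by
    intro w hw hwz h
    have h0 := hno w hwz
    rcases L.isEnd_iff.1 h with h1 | h1 | h1
    · exact h0 (Or.inl h1) hw
    · exact h0 (Or.inr h1) hw
    · -- a closed loop of length two
      have hs : ∀ a, (a = w ∨ a = L.σ w) → ∀ b, L.G.Adj a b → (b = w ∨ b = L.σ w) := by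
        rintro a (rfl | rfl) b ⟨-, h2 | h2⟩
        · exact Or.inr h2.symm
        · right; rw [← h2, h1]
        · left; rw [← h2, L.hσ]
        · left; rw [← h2, h1, L.hθ]
      have hcl : ∀ a b, L.G.Reachable a b → (a = w ∨ a = L.σ w) → (b = w ∨ b = L.σ w) := by
        rintro a b ⟨p⟩
        induction p with
        | nil => exact id
        | cons h3 _ ih => exact fun h4 => ih (hs _ h4 _ h3)
      rcases hcl w z (Reachable.symm hw) (Or.inl rfl) with h2 | h2
      · exact hwz h2.symm
      · rw [h2, h1, L.hθ] at hz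
        exact hwz (by rw [h2, h1]; exact hz)
  obtain ⟨v, hv, b, hb, -, hvb⟩ := leave L.deg2 (I := {w | L.G.Reachable z w})
    (Reachable.refl z) (L.isEnd_of_θ hz) ⟨_, L.adj_σ hz'⟩ hI
  exact hb (Reachable.trans hv hvb.reachable)

variable {L L'}

/-- ends which are joined to a neighbour by both links form a closed loop of length two -/
lemma two_loop {x y : α} (h : L.σ x = L.θ x) (hr : L.G.Reachable x y) : y = x ∨ y = L.σ x := by
  have hs : ∀ a, (a = x ∨ a = L.σ x) → ∀ b, L.G.Adj a b → (b = x ∨ b = L.σ x) := by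
    rintro a (rfl | rfl) b ⟨-, h2 | h2⟩
    · exact Or.inr h2.symm
    · right; rw [← h2, h]
    · left; rw [← h2, L.hσ]
    · left; rw [← h2, h, L.hθ]
  have hcl : ∀ a b, L.G.Reachable a b → (a = x ∨ a = L.σ x) → (b = x ∨ b = L.σ x) := by
    rintro a b ⟨p⟩
    induction p with
    | nil => exact id
    | cons h3 _ ih => exact fun h4 => ih (hs _ h4 _ h3)
  exact hcl x y hr (Or.inl rfl)

lemma far_spec [Finite α] {z : α} (hz : L.θ z = z) (hz' : L.σ z ≠ z) :
    L.far z ≠ z ∧ (L.σ (L.far z) = L.far z ∨ L.θ (L.far z) = L.far z) ∧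
      L.G.Reachable z (L.far z) := by
  have h := L.exists_far hz hz'
  unfold far
  rw [dif_pos h]
  exact h.choose_spec

/-- the far end is characterised by reachability -/
theorem far_eq [Finite α] {z x : α} (hz : L.θ z = z) (hz' : L.σ z ≠ z) (hx : x ≠ z)
    (ex : L.σ x = x ∨ L.θ x = x) (h : L.G.Reachable z x) : L.far z = x := by
  obtain ⟨h1, h2, h3⟩ := far_spec hz hz'
  have e1 : IsEnd L.G (L.far z) := h2.elim L.isEnd_of_σ L.isEnd_of_θ
  have e2 : IsEnd L.G x := ex.elim L.isEnd_of_σ L.isEnd_of_θ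
  rcases ends_two L.deg2 (L.isEnd_of_θ hz) e2 e1 h h3 hx.symm with h4 | h4
  · exact absurd h4 h1
  · exact h4

/-- if every linked end is matched in its room, the far end is not linked -/
lemma far_θ [Finite α] {z : α} (hz : L.θ z = z) (hz' : L.σ z ≠ z)
    (hm : ∀ e, L.θ e ≠ e → L.σ e ≠ e) : L.θ (L.far z) = L.far z := by
  obtain ⟨-, h2, -⟩ := far_spec hz hz'
  rcases h2 with h2 | h2
  · by_contra h
    exact hm _ h h2
  · exact h2

lemma far_σ [Finite α] {z : α} (hz : L.θ z = z) (hz' : L.σ z ≠ z)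
    (hm : ∀ e, L.θ e ≠ e → L.σ e ≠ e) : L.σ (L.far z) ≠ L.far z := by
  obtain ⟨h1, -, h3⟩ := far_spec hz hz'
  have h4 := far_θ hz hz' hm
  intro h5
  have key : ∀ a b, L.G.Reachable a b → L.σ a = a → L.θ a = a → a = b := by
    rintro a b ⟨p⟩ ha hb
    cases p with
    | nil => rfl
    | cons h _ =>
      rcases h.2 with h6 | h6
      · exact absurd (ha.symm.trans h6) h.1
      · exact absurd (hb.symm.trans h6) h.1
  exact h1 (key _ _ h3.symm h5 h4)

/-- the far end of the far end -/
lemma far_far [Finite α] {z : α} (hz : L.θ z = z) (hz' : L.σ z ≠ z)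
    (hm : ∀ e, L.θ e ≠ e → L.σ e ≠ e) : L.far (L.far z) = z := by
  obtain ⟨h1, -, h3⟩ := far_spec hz hz'
  exact far_eq (far_θ hz hz' hm) (far_σ hz hz' hm) h1.symm (Or.inr hz) h3.symm

/-- **Exit lemma (i).** `I` is closed under the gap links of both worlds, contains `z` resp. `z'`, and
every room strand which leaves `I` leads to `b`, in both worlds; the worlds agree outside `I`. -/
theorem far_block [Finite α] {I : Set α} {b z z' : α}
    (hz : L.θ z = z) (hz0 : L.σ z ≠ z) (hz' : L'.θ z' = z') (hz0' : L'.σ z' ≠ z')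
    (hzI : z ∈ I) (hzI' : z' ∈ I)
    (hθ : ∀ e ∈ I, L.θ e ∈ I) (hθ' : ∀ e ∈ I, L'.θ e ∈ I)
    (hσ : ∀ e ∈ I, L.σ e ∉ I → L.σ e = b) (hσ' : ∀ e ∈ I, L'.σ e ∉ I → L'.σ e = b)
    (aσ : ∀ e, e ∉ I → L.σ e ∉ I → L.σ e = L'.σ e)
    (aσ' : ∀ e, e ∉ I → L'.σ e ∉ I → L.σ e = L'.σ e)
    (aθ : ∀ e, e ∉ I → L.θ e = L'.θ e)
    (hf : L.far z ∉ I) (hf' : L'.far z' ∉ I) : L.far z = L'.far z' := by
  obtain ⟨-, h2, h3⟩ := far_spec hz hz0
  obtain ⟨-, h2', h3'⟩ := far_spec hz' hz0'
  refine block (G := L.G) (G' := L'.G) L.deg2 ?_ (I := I) (b := b) ?_ ?_ hzI hzI' hf hf'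
    (h2.elim L.isEnd_of_σ L.isEnd_of_θ) (h2'.elim L'.isEnd_of_σ L'.isEnd_of_θ) h3 h3'
  · intro u v hu hv
    constructor
    · rintro ⟨h, h1 | h1⟩
      · exact ⟨h, Or.inl (by rw [← aσ u hu (h1 ▸ hv), h1])⟩
      · exact ⟨h, Or.inr (by rw [← aθ u hu, h1])⟩
    · rintro ⟨h, h1 | h1⟩
      · exact ⟨h, Or.inl (by rw [aσ' u hu (h1 ▸ hv), h1])⟩
      · exact ⟨h, Or.inr (by rw [aθ u hu, h1])⟩
  · rintro u v hu hv ⟨-, h | h⟩
    · rw [← h] at hv ⊢
      exact hσ u hu hv
    · exact absurd (h ▸ hθ u hu) hv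
  · rintro u v hu hv ⟨-, h | h⟩
    · rw [← h] at hv ⊢
      exact hσ' u hu hv
    · exact absurd (h ▸ hθ' u hu) hv

/-- **Contraction lemma (ii).** `U` is the union of the regions where the two worlds may differ. -/
theorem far_contract [Finite α] {U : Set α} {z z' : α}
    (hz : L.θ z = z) (hz0 : L.σ z ≠ z) (hz' : L'.θ z' = z') (hz0' : L'.σ z' ≠ z')
    (hag : ∀ u v, u ∉ U → v ∉ U → L.G.Adj u v → L'.G.Reachable u v)
    (hR : ∀ b c, b ∉ U → c ∉ U → InR L.G U b c → L'.G.Reachable b c)
    (hzU : z ∈ U) (hE : ∀ b, b ∉ U → ExR L.G U z b → L'.G.Reachable z' b)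
    (hf : L.far z ∉ U) (hf' : L.far z ≠ z')
    (he : L'.σ (L.far z) = L.far z ∨ L'.θ (L.far z) = L.far z) : L.far z = L'.far z' := by
  obtain ⟨-, -, h3⟩ := far_spec hz hz0
  exact (far_eq hz' hz0' hf' he (reach_contract_from hag hR hzU hE hf h3)).symm

end Lk

end Pool.Agent.H99.W
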