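import Mathlib
import Pool.Agent.H60.Q1.Diag
import Pool.Agent.H75.TwoArm.Strand

set_option autoImplicit false
open Finset

/-! # The planar lemma for one room (Route W, module D7)

Flat wall `{x + y = k}` of the tile frame, room labels `l.1 + l.2 ≥ 2 k + 1`. A path (a set of labels `A`
of the room which joins two wall vertices `x < y`) is completed below the wall and gives a face colouring
`S` with values in `ZMod 2`: `S` does not change across room labels outside `A`, it is `1` exactly at the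
wall faces between `x` and `y`, and `0` below the wall and outside of the box. The corners `c` with
`S (fi c) = 1` are the enclosed corners: they are invariant under the strand step at room labels
(`step_prim`). `ucol_dual`, `step_dual`: the same for a dual path (vertex colouring). `ucol_stair`: banks
which are staircases. -/

namespace Pool.Agent.H99.W

open Pool.Agent.H75.Perc Pool.Agent.H75.TwoArm Pool.Agent.H75.Four Pool.Agent.H75.Four.PivAux
  Pool.Agent.H60.Q1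

/-- the zigzag below the wall between the wall vertices `x < y` -/
def zz (k x y : ℤ) (l : ℤ × ℤ) : ZMod 2 :=
  if l.1 + l.2 = 2 * k - 1 ∧ 2 * x ≤ l.1 ∧ l.1 ≤ 2 * y - 1 then 1 else 0

lemma dg_zz {k x y : ℤ} (hxy : x < y) (w : ℤ × ℤ) :
    dg (zz k x y) w = id1 (x, k - x) w + id1 (y, k - y) w := by
  obtain ⟨i, j⟩ := w
  unfold dg zz id1
  simp only [Prod.mk.injEq]
  split_ifs <;> first | (exfalso; omega) | rfl

lemma zz_ne {k x y : ℤ} {l : ℤ × ℤ} (h : zz k x y l ≠ 0) :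
    l.1 + l.2 = 2 * k - 1 ∧ 2 * x ≤ l.1 ∧ l.1 ≤ 2 * y - 1 := by
  unfold zz at h
  by_contra h1
  rw [if_neg h1] at h
  exact h rfl

/-- **The face colouring of a path from wall to wall.** -/
theorem ucol {a b c d k x y : ℤ} {A : Finset (ℤ × ℤ)} (hA : ∀ l ∈ A, l ∈ DX a b c d k)
    (hxy : x < y) (hx : a ≤ x) (hy : y ≤ b) (hc : c ≤ k - y) (hd : k - x ≤ d)
    (h : Co A (x, k - x) (y, k - y)) :
    ∃ S : ℤ × ℤ → ZMod 2,
      (∀ f g : ℤ × ℤ, IsUnit4 (g - f) → 2 * k + 1 ≤ (f + g - (1, 1)).1 + (f + g - (1, 1)).2 →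
        f + g - (1, 1) ∉ A → S f = S g) ∧
      (∀ s : ℤ, S (s, k + 1 - s) = if x < s ∧ s ≤ y then 1 else 0) ∧
      (∀ f : ℤ × ℤ, f.1 + f.2 ≤ k → S f = 0) ∧
      (∀ f : ℤ × ℤ, Out a b c d f → S f = 0) := by
  have hz : ∀ x y : ZMod 2, x + y = 0 → x = y := by decide
  have hz1 : ∀ x y z : ZMod 2, x + y = z → x = y + z := by decide
  obtain ⟨n, hn1, hn2⟩ := co_cycle h
  have hB : ∀ l, n l + zz k x y l ≠ 0 → l ∈ Bx a b c d := by
    intro l hl
    by_cases h0 : n l = 0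
    · rw [h0, zero_add] at hl
      have := zz_ne hl
      rw [mem_Bx]
      omega
    · exact (mem_DX.1 (hA l (hn1 l h0))).1
  have hfin : {l : ℤ × ℤ | n l + zz k x y l ≠ 0}.Finite :=
    (Bx a b c d).finite_toSet.subset fun l hl => hB l hl
  have hdeg : ∀ w, dg (fun l => n l + zz k x y l) w = 0 := by
    intro w
    rw [dg_add, hn2, dg_zz hxy]
    exact zmod2_add_self _
  obtain ⟨S0, hS0⟩ := even_faces (fun l => n l + zz k x y l) hfin hdeg
  set S : ℤ × ℤ → ZMod 2 := fun f => S0 f + S0 (a, c) with hSdef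
  have hS : ∀ f g : ℤ × ℤ, IsUnit4 (g - f) → S f + S g = n (f + g - (1, 1)) + zz k x y (f + g - (1, 1)) := by
    intro f g hfg
    have := hS0 f g hfg
    rw [hSdef]
    simp only
    rw [← this]
    generalize S0 f = p
    generalize S0 g = q
    generalize S0 (a, c) = r
    revert p q r; decide
  have hn0 : ∀ l : ℤ × ℤ, l.1 + l.2 ≤ 2 * k → n l = 0 := fun l hl => by
    by_contra h1
    have := (mem_DX.1 (hA l (hn1 l h1))).2
    omega
  have hm0 : ∀ l : ℤ × ℤ, l.1 + l.2 ≠ 2 * k - 1 → zz k x y l = 0 := fun l hl => by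
    by_contra h1
    exact hl (zz_ne h1).1
  have hout : ∀ f : ℤ × ℤ, Out a b c d f → S f = 0 := by
    intro f hf
    have h1 := out_const hB hS hf (g := (a, c)) (Or.inl le_rfl)
    rw [h1, hSdef]
    exact zmod2_add_self _
  -- below the wall
  have hleft : ∀ (t : ℕ) (i j : ℤ), i + j ≤ k → S (i - t, j) = S (i, j) := by
    intro t
    induction t with
    | zero => intro i j _; simp
    | succ t ih =>
      intro i j hij
      rw [← ih i j hij]
      apply hz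
      rw [hS _ _ (by
        unfold IsUnit4
        simp only [Prod.ext_iff, Prod.fst_sub, Prod.snd_sub]
        push_cast
        omega)]
      rw [hn0 _ (by simp only [Prod.mk_add_mk, Prod.mk_sub_mk]; push_cast; omega),
        hm0 _ (by simp only [Prod.mk_add_mk, Prod.mk_sub_mk]; push_cast; omega), add_zero]
  have hbel : ∀ f : ℤ × ℤ, f.1 + f.2 ≤ k → S f = 0 := by
    rintro ⟨i, j⟩ hij
    simp only at hij
    rcases le_or_gt i a with h1 | h1
    · exact hout _ (Or.inl h1)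
    · rw [← hleft (i - a).toNat i j hij, Int.toNat_of_nonneg (by omega)]
      exact hout _ (Or.inl (by simp only; omega))
  refine ⟨S, ?_, ?_, hbel, hout⟩
  · intro f g hfg h1 h2
    apply hz
    rw [hS f g hfg, hm0 _ (by omega), add_zero]
    by_contra h3
    exact h2 (hn1 _ h3)
  · intro s
    have h3 := hS (s, k + 1 - s) (s - 1, k + 1 - s) (by unfold IsUnit4; simp [Prod.ext_iff])
    have e6 : ((s, k + 1 - s) : ℤ × ℤ) + (s - 1, k + 1 - s) - (1, 1) =
        (2 * s - 2, 2 * k + 1 - 2 * s) := by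
      refine Prod.ext ?_ ?_ <;> simp only [Prod.mk_add_mk, Prod.mk_sub_mk] <;> ring
    rw [e6, hn0 _ (by simp only; omega), hbel (s - 1, k + 1 - s) (by simp only; omega), add_zero,
      zero_add] at h3
    rw [h3]
    unfold zz
    simp only
    by_cases h4 : x < s ∧ s ≤ y
    · rw [if_pos h4, if_pos (by omega)]
    · rw [if_neg h4, if_neg (by omega)]

/-- **Strand steps do not cross a primal path.** -/
lemma step_prim {S : ℤ × ℤ → ZMod 2} {ω A : Finset (ℤ × ℤ)} (hAω : A ⊆ ω) {e : ℤ × ℤ}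
    (h : ∀ f g : ℤ × ℤ, IsUnit4 (g - f) → f + g - (1, 1) = lab e → lab e ∉ A → S f = S g) :
    S (fi (nx ω e)) = S (fi e) := by
  unfold nx
  by_cases h1 : lab e ∈ ω
  · rw [if_pos h1, StrandAux.fi_nxO]
  · rw [if_neg h1]
    obtain ⟨h2, h3⟩ := StrandAux.fi_nxC e
    exact (h _ _ h2 (by rw [h3]; simp) fun h4 => h1 (hAω h4)).symm

/-- wall corners: enclosed iff between the feet -/
lemma wall_prim {S : ℤ × ℤ → ZMod 2} {k x y : ℤ}
    (h : ∀ s : ℤ, S (s, k + 1 - s) = if x < s ∧ s ≤ y then 1 else 0) {e : ℤ × ℤ}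
    (he : e.1 + e.2 = 2 * k + 1) : S (fi e) = if 2 * x + 1 ≤ e.1 ∧ e.1 ≤ 2 * y then 1 else 0 := by
  have h1 : fi e = ((e.1 + 1) / 2, k + 1 - (e.1 + 1) / 2) := by
    unfold fi
    refine Prod.ext rfl ?_
    simp only
    omega
  rw [h1, h]
  by_cases h2 : x < (e.1 + 1) / 2 ∧ (e.1 + 1) / 2 ≤ y
  · rw [if_pos h2, if_pos (by omega)]
  · rw [if_neg h2, if_neg (by omega)]

/-- **The vertex colouring of a dual path from wall to wall.** `E` : the labels which may be used. -/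
theorem ucol_dual {a b c d k s t : ℤ} {E ω : Finset (ℤ × ℤ)} (hE : ∀ l ∈ E, l ∈ DX a b c d k)
    (hst : s < t) (hs : a ≤ s) (ht : t ≤ b) (hc : c ≤ k - t) (hd : k - s ≤ d)
    (h : Co (du E ω) (s, k + 1 - s) (t, k + 1 - t)) :
    ∃ S : ℤ × ℤ → ZMod 2,
      (∀ u v : ℤ × ℤ, IsUnit4 (v - u) → 2 * k + 1 ≤ (u + v).1 + (u + v).2 →
        (u + v ∉ E ∨ u + v ∈ ω) → S u = S v) ∧
      (∀ x : ℤ, S (x, k - x) = if s ≤ x ∧ x < t then 1 else 0) ∧
      (∀ v : ℤ × ℤ, v.1 + v.2 ≤ k - 1 → S v = 0) ∧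
      (∀ v : ℤ × ℤ, (v.1 < a ∨ b < v.1 ∨ v.2 < c ∨ d < v.2) → S v = 0) := by
  have hA : ∀ l ∈ du E ω, l ∈ DX a (b + 1) c (d + 1) (k + 1) := by
    intro l hl
    unfold du at hl
    rw [mem_map] at hl
    obtain ⟨l', hl', rfl⟩ := hl
    have h1 := mem_DX.1 (hE l' (mem_sdiff.1 hl').1)
    rw [mem_Bx] at h1
    rw [mem_DX, mem_Bx]
    have e1 : (sh1 l').1 = l'.1 + 1 := rfl
    have e2 : (sh1 l').2 = l'.2 + 1 := rfl
    rw [e1, e2]
    omega
  have h' : Co (du E ω) (s, k + 1 - s) (t, k + 1 - t) := h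
  obtain ⟨S, h1, h2, h3, h4⟩ := ucol (k := k + 1) hA hst hs (by omega) (by omega) (by omega) h'
  refine ⟨fun v => S (v + (1, 1)), ?_, ?_, ?_, ?_⟩
  · intro u v huv hk hor
    have e1 : u + (1, 1) + (v + (1, 1)) - (1, 1) = u + v + ((1, 1) : ℤ × ℤ) := by abel
    refine h1 _ _ (by rwa [add_sub_add_right_eq_sub]) ?_ ?_
    · rw [e1]
      simp only [Prod.fst_add, Prod.snd_add] at hk ⊢
      omega
    · rw [e1]
      intro h5
      unfold du at h5
      rw [mem_map] at h5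
      obtain ⟨l', hl', he⟩ := h5
      have e2 : l' = u + v := by
        have e3 := congrArg Prod.fst he
        have e4 := congrArg Prod.snd he
        have e5 : (sh1 l').1 = l'.1 + 1 := rfl
        have e6 : (sh1 l').2 = l'.2 + 1 := rfl
        rw [e5] at e3
        rw [e6] at e4
        simp only [Prod.fst_add, Prod.snd_add] at e3 e4
        refine Prod.ext ?_ ?_ <;> simp only [Prod.fst_add, Prod.snd_add] <;> omega
      rw [e2, mem_sdiff] at hl'
      rcases hor with h6 | h6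
      · exact h6 hl'.1
      · exact hl'.2 h6
  · intro x
    have h5 := h2 (x + 1)
    have e1 : ((x, k - x) : ℤ × ℤ) + (1, 1) = (x + 1, k + 1 + 1 - (x + 1)) := by
      refine Prod.ext (by simp only [Prod.mk_add_mk]) ?_
      simp only [Prod.mk_add_mk]
      ring
    simp only
    rw [e1, h5]
    by_cases h6 : s ≤ x ∧ x < t
    · rw [if_pos h6, if_pos (by omega)]
    · rw [if_neg h6, if_neg (by omega)]
  · intro v hv
    exact h3 _ (by simp only [Prod.fst_add, Prod.snd_add]; omega)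
  · intro v hv
    refine h4 _ ?_
    unfold Out
    simp only [Prod.fst_add, Prod.snd_add]
    omega

/-- **Strand steps do not cross a dual path.** -/
lemma step_dual {S : ℤ × ℤ → ZMod 2} {ω E : Finset (ℤ × ℤ)} {e : ℤ × ℤ}
    (h : ∀ u v : ℤ × ℤ, IsUnit4 (v - u) → u + v = lab e → (lab e ∉ E ∨ lab e ∈ ω) → S u = S v) :
    S (vx (nx ω e)) = S (vx e) := by
  unfold nx
  by_cases h1 : lab e ∈ ω
  · rw [if_pos h1]
    obtain ⟨h2, h3⟩ := vx_nxO e
    exact (h _ _ h2 h3 (Or.inr h1)).symm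
  · rw [if_neg h1, StrandAux.vx_nxC]

lemma wall_dual {S : ℤ × ℤ → ZMod 2} {k s t : ℤ}
    (h : ∀ x : ℤ, S (x, k - x) = if s ≤ x ∧ x < t then 1 else 0) {e : ℤ × ℤ}
    (he : e.1 + e.2 = 2 * k + 1) : S (vx e) = if 2 * s ≤ e.1 ∧ e.1 ≤ 2 * t - 1 then 1 else 0 := by
  have h1 : vx e = (e.1 / 2, k - e.1 / 2) := by
    unfold vx
    refine Prod.ext rfl ?_
    simp only
    omega
  rw [h1, h]
  by_cases h2 : s ≤ e.1 / 2 ∧ e.1 / 2 < t
  · rw [if_pos h2, if_pos (by omega)]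
  · rw [if_neg h2, if_neg (by omega)]

/-! ### Staircases -/

/-- the labels of the horizontal segment from `p` to the left, down to the wall -/
noncomputable def hseg (k : ℤ) (p : ℤ × ℤ) : Finset (ℤ × ℤ) :=
  (range (p.1 + p.2 - k).toNat).image fun t : ℕ => (2 * p.1 - 1 - 2 * (t : ℤ), 2 * p.2)

lemma mem_hseg {k : ℤ} {p l : ℤ × ℤ} : l ∈ hseg k p ↔
    ∃ t : ℕ, (t : ℤ) < p.1 + p.2 - k ∧ l = (2 * p.1 - 1 - 2 * (t : ℤ), 2 * p.2) := by
  unfold hseg
  rw [mem_image]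
  constructor
  · rintro ⟨t, ht, rfl⟩
    rw [mem_range] at ht
    exact ⟨t, by omega, rfl⟩
  · rintro ⟨t, ht, rfl⟩
    exact ⟨t, mem_range.2 (by omega), rfl⟩

lemma co_hseg {k : ℤ} {p : ℤ × ℤ} (h : k ≤ p.1 + p.2) :
    Co (hseg k p) p (k - p.2, p.2) := by
  have key : ∀ t : ℕ, (t : ℤ) ≤ p.1 + p.2 - k → Co (hseg k p) p (p.1 - t, p.2) := by
    intro t
    induction t with
    | zero => intro _; simpa using Co.refl (hseg k p) p
    | succ t ih =>
      intro ht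
      push_cast at ht ⊢
      refine (ih (by omega)).tail ⟨?_, ?_⟩
      · unfold IsUnit4
        simp only [Prod.ext_iff, Prod.fst_sub, Prod.snd_sub]
        omega
      · rw [mem_hseg]
        refine ⟨t, by omega, ?_⟩
        refine Prod.ext ?_ ?_ <;> simp only [Prod.mk_add_mk] <;> ring
  have := key (p.1 + p.2 - k).toNat (by omega)
  rw [Int.toNat_of_nonneg (by omega)] at this
  rwa [show p.1 - (p.1 + p.2 - k) = k - p.2 by ring] at this

/-- **The face colouring of a path between two boundary vertices `p`, `q` of a staircase domain `E`.**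
`p` is the upper left foot, `q` the lower right foot; no label of `E` lies on the horizontal rays from
`p` and `q` to the left. -/
theorem ucol_stair {a b c d k : ℤ} {E A : Finset (ℤ × ℤ)} {p q : ℤ × ℤ}
    (hE : ∀ l ∈ E, l ∈ DX a b c d k) (hA : A ⊆ E)
    (hp : ∀ t : ℕ, (t : ℤ) < p.1 + p.2 - k → ((2 * p.1 - 1 - 2 * (t : ℤ), 2 * p.2) : ℤ × ℤ) ∉ E)
    (hq : ∀ t : ℕ, (t : ℤ) < q.1 + q.2 - k → ((2 * q.1 - 1 - 2 * (t : ℤ), 2 * q.2) : ℤ × ℤ) ∉ E)
    (hpk : k ≤ p.1 + p.2) (hqk : k ≤ q.1 + q.2) (hpq : q.2 < p.2)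
    (b1 : a ≤ k - p.2) (b2 : p.1 ≤ b) (b3 : q.1 ≤ b) (b4 : k - q.2 ≤ b) (b5 : c ≤ q.2)
    (b6 : p.2 ≤ d) (h : Co A p q) :
    ∃ S : ℤ × ℤ → ZMod 2,
      (∀ f g : ℤ × ℤ, IsUnit4 (g - f) → f + g - (1, 1) ∈ E → f + g - (1, 1) ∉ A → S f = S g) ∧
      (∀ f g : ℤ × ℤ, IsUnit4 (g - f) → 2 * k + 1 ≤ (f + g - (1, 1)).1 + (f + g - (1, 1)).2 →
        (f + g - (1, 1)).1 % 2 = 0 → f + g - (1, 1) ∉ A → S f = S g) ∧
      (∀ f : ℤ × ℤ, k + 1 ≤ f.1 + f.2 → (∀ t : ℕ, (t : ℤ) < f.1 + f.2 - k - 1 →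
        ((2 * f.1 - 2 - 2 * (t : ℤ), 2 * f.2 - 1) : ℤ × ℤ) ∉ A) →
        S f = if q.2 < f.2 ∧ f.2 ≤ p.2 then 1 else 0) ∧
      (∀ f : ℤ × ℤ, f.1 + f.2 ≤ k → S f = 0) ∧
      (∀ f : ℤ × ℤ, Out a b c d f → S f = 0) := by
  set A' : Finset (ℤ × ℤ) := A ∪ (hseg k p ∪ hseg k q) with hA'
  have hseg1 : ∀ {r : ℤ × ℤ}, a ≤ k - r.2 → r.1 ≤ b → c ≤ r.2 → r.2 ≤ d →
      ∀ l ∈ hseg k r, l ∈ DX a b c d k := by
    intro r g1 g2 g3 g4 l hl
    obtain ⟨t, ht, rfl⟩ := mem_hseg.1 hl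
    rw [mem_DX, mem_Bx]
    simp only
    omega
  have hA1 : ∀ l ∈ A', l ∈ DX a b c d k := by
    intro l hl
    rw [hA', mem_union, mem_union] at hl
    rcases hl with h1 | h1 | h1
    · exact hE l (hA h1)
    · exact hseg1 b1 b2 (by omega) b6 l h1
    · exact hseg1 (by omega) b3 b5 (by omega) l h1
  have hco : Co A' (k - p.2, k - (k - p.2)) (k - q.2, k - (k - q.2)) := by
    rw [show k - (k - p.2) = p.2 by ring, show k - (k - q.2) = q.2 by ring]
    refine ((co_hseg hpk).mono ?_).symm.trans ((h.mono ?_).trans ((co_hseg hqk).mono ?_))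
    · exact subset_union_left.trans subset_union_right
    · exact subset_union_left
    · exact subset_union_right.trans subset_union_right
  obtain ⟨S, h1, h2, h3, h4⟩ := ucol hA1 (by omega) b1 b4 (by omega) (by omega) hco
  have hev : ∀ {r l : ℤ × ℤ}, l.1 % 2 = 0 → l ∉ hseg k r := by
    intro r l hl hm
    obtain ⟨t, ht, rfl⟩ := mem_hseg.1 hm
    simp only at hl
    omega
  have h2' : ∀ f g : ℤ × ℤ, IsUnit4 (g - f) → 2 * k + 1 ≤ (f + g - (1, 1)).1 + (f + g - (1, 1)).2 →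
        (f + g - (1, 1)).1 % 2 = 0 → f + g - (1, 1) ∉ A → S f = S g := by
    intro f g hfg g1 g2 g3
    refine h1 f g hfg g1 fun g4 => ?_
    rw [hA', mem_union, mem_union] at g4
    rcases g4 with g4 | g4 | g4
    · exact g3 g4
    · exact hev g2 g4
    · exact hev g2 g4
  refine ⟨S, ?_, h2', ?_, h3, h4⟩
  · intro f g hfg g1 g2
    refine h1 f g hfg (mem_DX.1 (hE _ g1)).2 fun g4 => ?_
    rw [hA', mem_union, mem_union] at g4
    rcases g4 with g4 | g4 | g4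
    · exact g2 g4
    · obtain ⟨t, ht, g5⟩ := mem_hseg.1 g4
      exact hp t ht (g5 ▸ g1)
    · obtain ⟨t, ht, g5⟩ := mem_hseg.1 g4
      exact hq t ht (g5 ▸ g1)
  · rintro ⟨i, j⟩ hf hl
    simp only at hf hl ⊢
    have key : ∀ t : ℕ, (t : ℤ) ≤ i + j - k - 1 → S (i - t, j) = S (i, j) := by
      intro t
      induction t with
      | zero => intro _; simp
      | succ t ih =>
        intro ht
        push_cast at ht
        rw [← ih (by omega)]
        push_cast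
        have e1 : ((i - (t : ℤ), j) : ℤ × ℤ) + (i - (t + 1), j) - (1, 1) =
            (2 * i - 2 - 2 * (t : ℤ), 2 * j - 1) := by
          refine Prod.ext ?_ ?_ <;> simp only [Prod.mk_add_mk, Prod.mk_sub_mk] <;> ring
        refine (h2' (i - t, j) (i - (t + 1), j) ?_ ?_ ?_ ?_).symm
        · unfold IsUnit4
          simp only [Prod.ext_iff, Prod.fst_sub, Prod.snd_sub]
          omega
        · rw [e1]; simp only; omega
        · rw [e1]; simp only; omega
        · rw [e1]; exact hl t (by omega)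
    have h5 := key (i + j - k - 1).toNat (by omega)
    rw [Int.toNat_of_nonneg (by omega)] at h5
    rw [← h5]
    have h6 := h2 (k + 1 - j)
    have e1 : ((i - (i + j - k - 1), j) : ℤ × ℤ) = (k + 1 - j, k + 1 - (k + 1 - j)) := by
      refine Prod.ext ?_ ?_ <;> simp only <;> ring
    rw [e1, h6]
    by_cases h7 : q.2 < j ∧ j ≤ p.2
    · rw [if_pos h7, if_pos (by omega)]
    · rw [if_neg h7, if_neg (by omega)]

lemma mem_sh1 {E : Finset (ℤ × ℤ)} {x y : ℤ} : ((x, y) : ℤ × ℤ) ∈ E.map sh1 ↔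
    ((x - 1, y - 1) : ℤ × ℤ) ∈ E := by
  rw [mem_map]
  constructor
  · rintro ⟨l, hl, he⟩
    have e3 := congrArg Prod.fst he
    have e4 := congrArg Prod.snd he
    have e5 : (sh1 l).1 = l.1 + 1 := rfl
    have e6 : (sh1 l).2 = l.2 + 1 := rfl
    rw [e5] at e3
    rw [e6] at e4
    simp only at e3 e4
    have : l = (x - 1, y - 1) := Prod.ext (by simp only; omega) (by simp only; omega)
    rwa [← this]
  · intro h
    exact ⟨_, h, by
      refine Prod.ext ?_ ?_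
      · change x - 1 + 1 = x; ring
      · change y - 1 + 1 = y; ring⟩

/-- **The vertex colouring of a dual path between two boundary faces `p`, `q` of a staircase domain.**
`p` is the upper left foot. -/
theorem ucol_stair_dual {a b c d k : ℤ} {E F ω : Finset (ℤ × ℤ)} {p q : ℤ × ℤ}
    (hE : ∀ l ∈ E, l ∈ DX a b c d k) (hF : F ⊆ E)
    (hp : ∀ t : ℕ, (t : ℤ) < p.1 + p.2 - k - 1 →
      ((2 * p.1 - 2 - 2 * (t : ℤ), 2 * p.2 - 1) : ℤ × ℤ) ∉ E)
    (hq : ∀ t : ℕ, (t : ℤ) < q.1 + q.2 - k - 1 →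
      ((2 * q.1 - 2 - 2 * (t : ℤ), 2 * q.2 - 1) : ℤ × ℤ) ∉ E)
    (hpk : k + 1 ≤ p.1 + p.2) (hqk : k + 1 ≤ q.1 + q.2) (hpq : q.2 < p.2)
    (b1 : a ≤ k + 1 - p.2) (b2 : p.1 ≤ b) (b3 : q.1 ≤ b) (b4 : k + 1 - q.2 ≤ b) (b5 : c ≤ q.2)
    (b6 : p.2 ≤ d) (h : Co (du F ω) p q) :
    ∃ S : ℤ × ℤ → ZMod 2,
      (∀ u v : ℤ × ℤ, IsUnit4 (v - u) → u + v ∈ E → (u + v ∉ F ∨ u + v ∈ ω) → S u = S v) ∧
      (∀ u v : ℤ × ℤ, IsUnit4 (v - u) → 2 * k + 1 ≤ (u + v).1 + (u + v).2 →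
        (u + v).1 % 2 = 1 → (u + v ∉ F ∨ u + v ∈ ω) → S u = S v) ∧
      (∀ v : ℤ × ℤ, k ≤ v.1 + v.2 → (∀ t : ℕ, (t : ℤ) < v.1 + v.2 - k →
        (((2 * v.1 - 1 - 2 * (t : ℤ), 2 * v.2) : ℤ × ℤ) ∉ F ∨
          ((2 * v.1 - 1 - 2 * (t : ℤ), 2 * v.2) : ℤ × ℤ) ∈ ω)) →
        S v = if q.2 ≤ v.2 ∧ v.2 < p.2 then 1 else 0) ∧
      (∀ v : ℤ × ℤ, v.1 + v.2 ≤ k - 1 → S v = 0) ∧
      (∀ v : ℤ × ℤ, (v.1 < a ∨ b < v.1 ∨ v.2 < c ∨ d < v.2) → S v = 0) := by
  have hE' : ∀ l ∈ E.map sh1, l ∈ DX a (b + 1) c (d + 1) (k + 1) := by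
    rintro ⟨x, y⟩ hl
    rw [mem_sh1] at hl
    have h1 := mem_DX.1 (hE _ hl)
    rw [mem_Bx] at h1
    rw [mem_DX, mem_Bx]
    simp only at h1 ⊢
    omega
  have hdu : du F ω ⊆ E.map sh1 := map_subset_map.2 (sdiff_subset.trans hF)
  have hmdu : ∀ u v : ℤ × ℤ, u + (1, 1) + (v + (1, 1)) - (1, 1) ∈ du F ω ↔
      (u + v ∈ F ∧ u + v ∉ ω) := by
    rintro ⟨u1, u2⟩ ⟨v1, v2⟩
    unfold du
    simp only [Prod.mk_add_mk, Prod.mk_sub_mk]
    rw [mem_sh1, mem_sdiff]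
    have e1 : ((u1 + 1 + (v1 + 1) - 1 - 1, u2 + 1 + (v2 + 1) - 1 - 1) : ℤ × ℤ) =
        (u1 + v1, u2 + v2) := by
      refine Prod.ext ?_ ?_ <;> simp only <;> ring
    rw [e1]
  have hmE : ∀ u v : ℤ × ℤ, u + (1, 1) + (v + (1, 1)) - (1, 1) ∈ E.map sh1 ↔ u + v ∈ E := by
    rintro ⟨u1, u2⟩ ⟨v1, v2⟩
    simp only [Prod.mk_add_mk, Prod.mk_sub_mk]
    rw [mem_sh1]
    have e1 : ((u1 + 1 + (v1 + 1) - 1 - 1, u2 + 1 + (v2 + 1) - 1 - 1) : ℤ × ℤ) =
        (u1 + v1, u2 + v2) := by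
      refine Prod.ext ?_ ?_ <;> simp only <;> ring
    rw [e1]
  obtain ⟨S, h1, h2, h3, h4, h5⟩ := ucol_stair (k := k + 1) (p := p) (q := q) hE' hdu
    (by
      intro t ht
      rw [mem_sh1]
      have := hp t (by omega)
      rwa [show 2 * p.1 - 1 - 2 * (t : ℤ) - 1 = 2 * p.1 - 2 - 2 * t by ring])
    (by
      intro t ht
      rw [mem_sh1]
      have := hq t (by omega)
      rwa [show 2 * q.1 - 1 - 2 * (t : ℤ) - 1 = 2 * q.1 - 2 - 2 * t by ring])
    hpk hqk hpq (by omega) (by omega) (by omega) (by omega) b5 (by omega) h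
  have hu : ∀ u v : ℤ × ℤ, IsUnit4 (v - u) → IsUnit4 (v + (1, 1) - (u + (1, 1))) := by
    intro u v h
    rwa [add_sub_add_right_eq_sub]
  refine ⟨fun v => S (v + (1, 1)), ?_, ?_, ?_, ?_, ?_⟩
  · intro u v huv g1 g2
    exact h1 _ _ (hu u v huv) ((hmE u v).2 g1) fun g =>
      g2.elim (fun g3 => g3 ((hmdu u v).1 g).1) (fun g3 => ((hmdu u v).1 g).2 g3)
  · intro u v huv g1 g2 g3
    refine h2 _ _ (hu u v huv) ?_ ?_ ?_
    · simp only [Prod.fst_add, Prod.snd_add, Prod.fst_sub, Prod.snd_sub] at g1 ⊢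
      omega
    · simp only [Prod.fst_add, Prod.fst_sub] at g2 ⊢
      omega
    · intro g
      obtain ⟨g4, g5⟩ := (hmdu u v).1 g
      rcases g3 with g3 | g3
      · exact g3 g4
      · exact g5 g3
  · rintro ⟨v1, v2⟩ hv hl
    simp only at hv hl ⊢
    have h6 := h3 (v1 + 1, v2 + 1) (by simp only; omega) (by
      intro t ht hm
      simp only at ht hm
      unfold du at hm
      rw [mem_sh1, mem_sdiff] at hm
      have := hl t (by omega)
      rw [show 2 * (v1 + 1) - 2 - 2 * (t : ℤ) - 1 = 2 * v1 - 1 - 2 * t by ring,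
        show 2 * (v2 + 1) - 1 - 1 = 2 * v2 by ring] at hm
      exact this.elim (fun h => h hm.1) (fun h => hm.2 h))
    change S (v1 + 1, v2 + 1) = _
    rw [h6]
    simp only
    by_cases h7 : q.2 ≤ v2 ∧ v2 < p.2
    · rw [if_pos h7, if_pos (by omega)]
    · rw [if_neg h7, if_neg (by omega)]
  · intro v hv
    exact h4 _ (by simp only [Prod.fst_add, Prod.snd_add]; omega)
  · intro v hv
    refine h5 _ ?_
    unfold Out
    simp only [Prod.fst_add, Prod.snd_add]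
    omega

end Pool.Agent.H99.W
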