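import Mathlib
import Pool.Agent.H99.W.Room
import Pool.Agent.H13.W.Graph

set_option autoImplicit false
open Finset

/-! # The planar lemma for one room: all orientations, in the language of the strand graph

`FC S e` : the face function `S` does not change across the label `e`; `VC S e` : the vertex function
does not change along the label `e`. `TJ_prim`, `TJ_dual` : natural tiles. `SyF` : symmetries of the
label lattice with their action on faces; `ucol_stair_sy`, `ucol_stair_dual_sy`. -/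

namespace Pool.Agent.H99.W

open Pool.Agent.H75.Perc Pool.Agent.H75.TwoArm Pool.Agent.H60.Q1 Pool.Agent.H13.W

/-- `S` does not change across the label `e` -/
def FC (S : ℤ × ℤ → ZMod 2) (e : ℤ × ℤ) : Prop :=
  ∀ f g : ℤ × ℤ, IsUnit4 (g - f) → f + g - (1, 1) = e → S f = S g

/-- `S` does not change along the label `e` -/
def VC (S : ℤ × ℤ → ZMod 2) (e : ℤ × ℤ) : Prop :=
  ∀ u v : ℤ × ℤ, IsUnit4 (v - u) → u + v = e → S u = S v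

variable {S : ℤ × ℤ → ZMod 2} {w : Finset (ℤ × ℤ)} {D : Set (ℤ × ℤ)} {e c d : ℤ × ℤ}

lemma nx_FC (h : lab c ∉ w → FC S (lab c)) : S (fi (nx w c)) = S (fi c) := by
  unfold nx
  by_cases h1 : lab c ∈ w
  · rw [if_pos h1, StrandAux.fi_nxO]
  · rw [if_neg h1]
    obtain ⟨h2, h3⟩ := StrandAux.fi_nxC c
    exact (h h1 _ _ h2 (by rw [h3]; simp)).symm

lemma nx_VC (h : lab c ∈ w → VC S (lab c)) : S (vx (nx w c)) = S (vx c) := by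
  unfold nx
  by_cases h1 : lab c ∈ w
  · rw [if_pos h1]
    obtain ⟨h2, h3⟩ := vx_nxO c
    exact (h h1 _ _ h2 h3).symm
  · rw [if_neg h1, StrandAux.vx_nxC]

/-- a natural tile does not cross a primal path -/
theorem TJ_prim (hD : e ∉ D) (h : e ∉ w → FC S e) (ht : TJ D w e c d) : S (fi c) = S (fi d) := by
  rcases ht with ⟨h1, -⟩ | ⟨-, ⟨h1, h2⟩ | ⟨h1, h2⟩⟩
  · exact absurd h1 hD
  · rw [← h2]; exact (nx_FC (by rw [h1]; exact h)).symm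
  · rw [← h2]; exact nx_FC (by rw [h1]; exact h)

/-- a natural tile does not cross a dual path -/
theorem TJ_dual (hD : e ∉ D) (h : e ∈ w → VC S e) (ht : TJ D w e c d) : S (vx c) = S (vx d) := by
  rcases ht with ⟨h1, -⟩ | ⟨-, ⟨h1, h2⟩ | ⟨h1, h2⟩⟩
  · exact absurd h1 hD
  · rw [← h2]; exact (nx_VC (by rw [h1]; exact h)).symm
  · rw [← h2]; exact nx_VC (by rw [h1]; exact h)

/-- symmetries with their action on faces -/
structure SyF extends Sy where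
  h : ℤ × ℤ → ℤ × ℤ
  hadd : ∀ f g : ℤ × ℤ, h f + h g - (1, 1) = G (f + g - (1, 1))
  hunit : ∀ f g : ℤ × ℤ, IsUnit4 (g - f) → IsUnit4 (h g - h f)

/-- identity -/
def syId : SyF where
  toSy := syT (0, 0)
  h f := f
  hadd f g := by
    refine Prod.ext ?_ ?_ <;>
    simp [syT]
  hunit f g hfg := hfg

/-- reflection `x ↦ - x` -/
def syFX : SyF where
  toSy := syX 0
  h f := (1 - f.1, f.2)
  hadd f g := by
    refine Prod.ext ?_ ?_ <;>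
    simp only [syX, Function.Embedding.coeFn_mk, Prod.fst_add, Prod.snd_add, Prod.fst_sub,
      Prod.snd_sub]
    ring
  hunit f g hfg := by
    unfold IsUnit4 at *
    simp only [Prod.ext_iff, Prod.fst_sub, Prod.snd_sub] at *
    omega

/-- reflection `y ↦ - y` -/
def syFY : SyF where
  toSy := syY 0
  h f := (f.1, 1 - f.2)
  hadd f g := by
    refine Prod.ext ?_ ?_ <;>
    simp only [syY, Function.Embedding.coeFn_mk, Prod.fst_add, Prod.snd_add, Prod.fst_sub,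
      Prod.snd_sub]
    ring
  hunit f g hfg := by
    unfold IsUnit4 at *
    simp only [Prod.ext_iff, Prod.fst_sub, Prod.snd_sub] at *
    omega

/-- transposition -/
def syFD : SyF where
  toSy := syD
  h f := (f.2, f.1)
  hadd f g := by
    refine Prod.ext ?_ ?_ <;>
    simp only [syD, Function.Embedding.coeFn_mk, Prod.fst_add, Prod.snd_add, Prod.fst_sub,
      Prod.snd_sub]
  hunit f g hfg := by
    unfold IsUnit4 at *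
    simp only [Prod.ext_iff, Prod.fst_sub, Prod.snd_sub] at *
    omega

/-- composition `Φ ∘ Ψ` -/
def SyF.comp (Φ Ψ : SyF) : SyF where
  g u := Φ.g (Ψ.g u)
  g' u := Ψ.g' (Φ.g' u)
  G := Ψ.G.trans Φ.G
  G' e := Ψ.G' (Φ.G' e)
  gg' u := by rw [Ψ.gg', Φ.gg']
  g'g u := by rw [Φ.g'g, Ψ.g'g]
  GG' e := by
    change Φ.G (Ψ.G (Ψ.G' (Φ.G' e))) = e
    rw [Ψ.GG', Φ.GG']
  add u v := by
    change Φ.g (Ψ.g u) + Φ.g (Ψ.g v) = Φ.G (Ψ.G (u + v))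
    rw [Φ.add, Ψ.add]
  unit u v := (Ψ.unit u v).trans (Φ.unit _ _)
  h f := Φ.h (Ψ.h f)
  hadd f g := by
    change Φ.h (Ψ.h f) + Φ.h (Ψ.h g) - (1, 1) = Φ.G (Ψ.G (f + g - (1, 1)))
    rw [Φ.hadd, Ψ.hadd]
  hunit f g hfg := Φ.hunit _ _ (Ψ.hunit _ _ hfg)

/-- **Primal path between two boundary vertices of a staircase domain, any orientation.** -/
theorem ucol_stair_sy (Φ : SyF) {a b c d k : ℤ} {E A : Finset (ℤ × ℤ)} {p q : ℤ × ℤ}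
    (hE : ∀ l ∈ E, Φ.G l ∈ DX a b c d k) (hA : A ⊆ E)
    (hp : ∀ t : ℕ, (t : ℤ) < (Φ.g p).1 + (Φ.g p).2 - k → ∀ l ∈ E,
      Φ.G l ≠ (2 * (Φ.g p).1 - 1 - 2 * (t : ℤ), 2 * (Φ.g p).2))
    (hq : ∀ t : ℕ, (t : ℤ) < (Φ.g q).1 + (Φ.g q).2 - k → ∀ l ∈ E,
      Φ.G l ≠ (2 * (Φ.g q).1 - 1 - 2 * (t : ℤ), 2 * (Φ.g q).2))
    (hpk : k ≤ (Φ.g p).1 + (Φ.g p).2) (hqk : k ≤ (Φ.g q).1 + (Φ.g q).2)
    (hpq : (Φ.g q).2 < (Φ.g p).2)
    (b1 : a ≤ k - (Φ.g p).2) (b2 : (Φ.g p).1 ≤ b) (b3 : (Φ.g q).1 ≤ b) (b4 : k - (Φ.g q).2 ≤ b)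
    (b5 : c ≤ (Φ.g q).2) (b6 : (Φ.g p).2 ≤ d) (h : Co A p q) :
    ∃ S : ℤ × ℤ → ZMod 2,
      (∀ l ∈ E, l ∉ A → FC S l) ∧
      (∀ f : ℤ × ℤ, k + 1 ≤ (Φ.h f).1 + (Φ.h f).2 →
        (∀ t : ℕ, (t : ℤ) < (Φ.h f).1 + (Φ.h f).2 - k - 1 → ∀ l ∈ A,
          Φ.G l ≠ (2 * (Φ.h f).1 - 2 - 2 * (t : ℤ), 2 * (Φ.h f).2 - 1)) →
        S f = if (Φ.g q).2 < (Φ.h f).2 ∧ (Φ.h f).2 ≤ (Φ.g p).2 then 1 else 0) ∧
      (∀ f : ℤ × ℤ, (Φ.h f).1 + (Φ.h f).2 ≤ k → S f = 0) ∧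
      (∀ f : ℤ × ℤ, Out a b c d (Φ.h f) → S f = 0) := by
  have hmem : ∀ (B : Finset (ℤ × ℤ)) (x : ℤ × ℤ), (∀ l ∈ B, Φ.G l ≠ x) → x ∉ B.map Φ.G := by
    intro B x hx hm
    rw [mem_map] at hm
    obtain ⟨l, hl, he⟩ := hm
    exact hx l hl he
  obtain ⟨S, h1, -, h3, h4, h5⟩ := ucol_stair (E := E.map Φ.G) (A := A.map Φ.G)
    (p := Φ.g p) (q := Φ.g q) (by
      intro l hl
      rw [mem_map] at hl
      obtain ⟨l', hl', rfl⟩ := hl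
      exact hE l' hl') (map_subset_map.2 hA) (fun t ht => hmem _ _ (hp t ht))
    (fun t ht => hmem _ _ (hq t ht)) hpk hqk hpq b1 b2 b3 b4 b5 b6 ((Φ.co_iff A p q).2 h)
  refine ⟨fun f => S (Φ.h f), ?_, ?_, fun f hf => h4 _ hf, fun f hf => h5 _ hf⟩
  · intro l hl hlA f g hfg hfl
    refine h1 _ _ (Φ.hunit f g hfg) ?_ ?_
    · rw [Φ.hadd, hfl]; exact mem_map_of_mem _ hl
    · rw [Φ.hadd, hfl, mem_map' Φ.G]; exact hlA
  · intro f hf1 hf2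
    exact h3 _ hf1 fun t ht => hmem _ _ (hf2 t ht)

/-- **Dual path between two boundary faces of a staircase domain, any orientation.** -/
theorem ucol_stair_dual_sy (Φ : SyF) {a b c d k : ℤ} {E F ω : Finset (ℤ × ℤ)} {p q : ℤ × ℤ}
    (hE : ∀ l ∈ E, Φ.G l ∈ DX a b c d k) (hF : F ⊆ E)
    (hp : ∀ t : ℕ, (t : ℤ) < (Φ.h p).1 + (Φ.h p).2 - k - 1 → ∀ l ∈ E,
      Φ.G l ≠ (2 * (Φ.h p).1 - 2 - 2 * (t : ℤ), 2 * (Φ.h p).2 - 1))
    (hq : ∀ t : ℕ, (t : ℤ) < (Φ.h q).1 + (Φ.h q).2 - k - 1 → ∀ l ∈ E,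
      Φ.G l ≠ (2 * (Φ.h q).1 - 2 - 2 * (t : ℤ), 2 * (Φ.h q).2 - 1))
    (hpk : k + 1 ≤ (Φ.h p).1 + (Φ.h p).2) (hqk : k + 1 ≤ (Φ.h q).1 + (Φ.h q).2)
    (hpq : (Φ.h q).2 < (Φ.h p).2)
    (b1 : a ≤ k + 1 - (Φ.h p).2) (b2 : (Φ.h p).1 ≤ b) (b3 : (Φ.h q).1 ≤ b)
    (b4 : k + 1 - (Φ.h q).2 ≤ b) (b5 : c ≤ (Φ.h q).2) (b6 : (Φ.h p).2 ≤ d)
    (h : Co (du F ω) p q) :
    ∃ S : ℤ × ℤ → ZMod 2,
      (∀ l ∈ E, (l ∉ F ∨ l ∈ ω) → VC S l) ∧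
      (∀ v : ℤ × ℤ, k ≤ (Φ.g v).1 + (Φ.g v).2 →
        (∀ t : ℕ, (t : ℤ) < (Φ.g v).1 + (Φ.g v).2 - k → ∀ l ∈ F, l ∉ ω →
          Φ.G l ≠ (2 * (Φ.g v).1 - 1 - 2 * (t : ℤ), 2 * (Φ.g v).2)) →
        S v = if (Φ.h q).2 ≤ (Φ.g v).2 ∧ (Φ.g v).2 < (Φ.h p).2 then 1 else 0) ∧
      (∀ v : ℤ × ℤ, (Φ.g v).1 + (Φ.g v).2 ≤ k - 1 → S v = 0) ∧
      (∀ v : ℤ × ℤ, ((Φ.g v).1 < a ∨ b < (Φ.g v).1 ∨ (Φ.g v).2 < c ∨ d < (Φ.g v).2) →
        S v = 0) := by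
  have hmem : ∀ (B : Finset (ℤ × ℤ)) (x : ℤ × ℤ), (∀ l ∈ B, Φ.G l ≠ x) → x ∉ B.map Φ.G := by
    intro B x hx hm
    rw [mem_map] at hm
    obtain ⟨l, hl, he⟩ := hm
    exact hx l hl he
  have hdual : Co (du (F.map Φ.G) (ω.map Φ.G)) (Φ.h p) (Φ.h q) := by
    refine Relation.ReflTransGen.lift Φ.h (fun x y hxy => ?_) _ _ h
    obtain ⟨h1, h2⟩ := hxy
    refine ⟨Φ.hunit x y h1, ?_⟩
    have e1 : Φ.h x + Φ.h y = Φ.G (x + y - (1, 1)) + (1, 1) := by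
      rw [← Φ.hadd]; abel
    unfold du at h2 ⊢
    rw [mem_map] at h2 ⊢
    obtain ⟨l, hl, he⟩ := h2
    have e2 : x + y - (1, 1) = l := by
      rw [← he]
      refine Prod.ext ?_ ?_ <;> simp [sh1]
    refine ⟨Φ.G l, ?_, ?_⟩
    · rw [mem_sdiff] at hl ⊢
      rw [mem_map' Φ.G, mem_map' Φ.G]
      exact hl
    · rw [e1, e2]
      refine Prod.ext ?_ ?_ <;> simp [sh1]
  obtain ⟨S, h1, -, h3, h4, h5⟩ := ucol_stair_dual (E := E.map Φ.G) (F := F.map Φ.G)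
    (ω := ω.map Φ.G) (p := Φ.h p) (q := Φ.h q) (by
      intro l hl
      rw [mem_map] at hl
      obtain ⟨l', hl', rfl⟩ := hl
      exact hE l' hl') (map_subset_map.2 hF) (fun t ht => hmem _ _ (hp t ht))
    (fun t ht => hmem _ _ (hq t ht)) hpk hqk hpq b1 b2 b3 b4 b5 b6 hdual
  refine ⟨fun v => S (Φ.g v), ?_, ?_, fun v hv => h4 _ hv, fun v hv => h5 _ hv⟩
  · intro l hl hor u v huv hl'
    refine h1 _ _ ((Φ.unit u v).1 huv) ?_ ?_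
    · rw [Φ.add, hl']; exact mem_map_of_mem _ hl
    · rw [Φ.add, hl', mem_map' Φ.G, mem_map' Φ.G]; exact hor
  · intro v hv1 hv2
    refine h3 _ hv1 fun t ht => ?_
    by_contra hcon
    rw [not_or, not_not, mem_map] at hcon
    obtain ⟨⟨l, hl, he⟩, hnot⟩ := hcon
    refine hv2 t ht l hl (fun hlω => hnot ?_) he
    rw [← he]
    exact mem_map_of_mem _ hlω

end Pool.Agent.H99.W
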