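import Mathlib
import Pool.Agent.H99.W.Block

set_option autoImplicit false

/-! # Gluing two strand graphs along their common ends

`G1` : strands in the room, `G2` : strands outside; every vertex which has a neighbour in both graphs
belongs to the set `E` of ends. `glue_reach` : reachability between ends in the union is generated by
reachability in the two parts. `glue_far` : if the two parts are given by matchings `σ`, `θ` of the ends,
the union is given by the links `Lk σ θ`. -/

namespace Pool.Agent.H99.W

open SimpleGraph

variable {α : Type*}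

/-- a vertex reached by a nontrivial walk has a neighbour -/
lemma nbr_of_reach {G : SimpleGraph α} {a b : α} (h : G.Reachable a b) (hne : a ≠ b) :
    (∃ x, G.Adj a x) ∧ ∃ x, G.Adj b x := by
  constructor
  · obtain ⟨p⟩ := h
    cases p with
    | nil => exact absurd rfl hne
    | cons h _ => exact ⟨_, h⟩
  · obtain ⟨p⟩ := h.symm
    cases p with
    | nil => exact absurd rfl hne
    | cons h _ => exact ⟨_, h⟩

/-- **Gluing.** -/
theorem glue_reach {G1 G2 : SimpleGraph α} {E : Set α}
    (hE : ∀ v, (∃ a, G1.Adj v a) → (∃ b, G2.Adj v b) → v ∈ E) {e e' : α} (he : e ∈ E)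
    (he' : e' ∈ E) : (G1 ⊔ G2).Reachable e e' ↔
      Relation.ReflTransGen (fun a b => a ∈ E ∧ b ∈ E ∧ (G1.Reachable a b ∨ G2.Reachable a b)) e e' := by
  constructor
  · rintro ⟨p⟩
    -- invariant: the current vertex is reached from an end within one of the two graphs
    have key : ∀ (a b : α) (p : (G1 ⊔ G2).Walk a b), b ∈ E →
        ∀ c, c ∈ E → (G1.Reachable c a ∨ G2.Reachable c a) →
        Relation.ReflTransGen
          (fun a b => a ∈ E ∧ b ∈ E ∧ (G1.Reachable a b ∨ G2.Reachable a b)) c b := by
      intro a b p
      induction p with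
      | nil => exact fun hb c hc h => Relation.ReflTransGen.single ⟨hc, hb, h⟩
      | @cons a v w h q ih =>
        intro hw c hc hca
        by_cases haE : a ∈ E
        · refine Relation.ReflTransGen.head ⟨hc, haE, hca⟩ (ih hw a haE ?_)
          rcases h with h | h
          · exact Or.inl h.reachable
          · exact Or.inr h.reachable
        · have hne : c ≠ a := fun h1 => haE (h1 ▸ hc)
          rcases h with h | h
          · rcases hca with h1 | h1
            · exact ih hw c hc (Or.inl (h1.trans h.reachable))
            · exact absurd (hE a ⟨v, h⟩ (nbr_of_reach h1 hne).2) haE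
          · rcases hca with h1 | h1
            · exact absurd (hE a (nbr_of_reach h1 hne).2 ⟨v, h⟩) haE
            · exact ih hw c hc (Or.inr (h1.trans h.reachable))
    exact key e e' p he' e he (Or.inl (Reachable.refl _))
  · intro h
    induction h with
    | refl => exact Reachable.refl _
    | tail _ h ih =>
      refine (ih h.1).trans ?_
      rcases h.2.2 with h1 | h1
      · exact h1.mono le_sup_left
      · exact h1.mono le_sup_right

/-- **Gluing of two matchings.** -/
theorem glue_far {G1 G2 : SimpleGraph α} {E : Set α} (L : Lk α)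
    (hE : ∀ v, (∃ a, G1.Adj v a) → (∃ b, G2.Adj v b) → v ∈ E)
    (h1 : ∀ a ∈ E, ∀ b ∈ E, G1.Reachable a b ↔ (b = a ∨ b = L.σ a))
    (h2 : ∀ a ∈ E, ∀ b ∈ E, G2.Reachable a b ↔ (b = a ∨ b = L.θ a))
    (hσ : ∀ a ∈ E, L.σ a ∈ E) (hθ : ∀ a ∈ E, L.θ a ∈ E)
    {e e' : α} (he : e ∈ E) (he' : e' ∈ E) :
    (G1 ⊔ G2).Reachable e e' ↔ L.G.Reachable e e' := by
  rw [glue_reach hE he he']
  constructor
  · intro h
    induction h with
    | refl => exact Reachable.refl _
    | @tail b c _ h ih =>
      obtain ⟨hb, hc, h3⟩ := h
      refine (ih hb).trans ?_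
      rcases h3 with h3 | h3
      · rcases (h1 b hb c hc).1 h3 with h4 | h4
        · rw [h4]
        · rw [h4]; exact L.reach_σ b
      · rcases (h2 b hb c hc).1 h3 with h4 | h4
        · rw [h4]
        · rw [h4]; exact L.reach_θ b
  · rintro ⟨p⟩
    have key : ∀ (a b : α) (p : L.G.Walk a b), a ∈ E → b ∈ E ∧ Relation.ReflTransGen
        (fun a b => a ∈ E ∧ b ∈ E ∧ (G1.Reachable a b ∨ G2.Reachable a b)) a b := by
      intro a b p
      induction p with
      | nil => exact fun h => ⟨h, Relation.ReflTransGen.refl⟩
      | @cons a v w h _ ih =>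
        intro ha
        rcases h.2 with h3 | h3
        · have hv : v ∈ E := h3 ▸ hσ a ha
          obtain ⟨i1, i2⟩ := ih hv
          exact ⟨i1, Relation.ReflTransGen.head
            ⟨ha, hv, Or.inl ((h1 a ha v hv).2 (Or.inr h3.symm))⟩ i2⟩
        · have hv : v ∈ E := h3 ▸ hθ a ha
          obtain ⟨i1, i2⟩ := ih hv
          exact ⟨i1, Relation.ReflTransGen.head
            ⟨ha, hv, Or.inr ((h2 a ha v hv).2 (Or.inr h3.symm))⟩ i2⟩
    exact (key e e' p he).2

/-- in a graph of degree at most two whose ends are exactly the vertices of `E` of the component, the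
partner: two different ends which are joined are the only ends of their component. -/
theorem partner_unique {G : SimpleGraph α} (hd : Deg2 G) {a b c : α} (ha : IsEnd G a)
    (hb : IsEnd G b) (hc : IsEnd G c) (hab : G.Reachable a b) (hac : G.Reachable a c) (h1 : a ≠ b)
    (h2 : a ≠ c) : b = c := by
  rcases ends_two hd ha hb hc hab hac h1 with h | h
  · exact absurd h.symm h2
  · exact h.symm

/-- the partner of an end which has a neighbour, in a finite graph in which all vertices outside `E`
are inner vertices -/
theorem exists_partner [Finite α] {G : SimpleGraph α} (hd : Deg2 G) {a : α} (ha : IsEnd G a)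
    (hn : ∃ x, G.Adj a x) : ∃ b, b ≠ a ∧ IsEnd G b ∧ G.Reachable a b := by
  by_contra hno
  push Not at hno
  obtain ⟨v, hv, b, hb, -, hvb⟩ := leave hd (I := {w | G.Reachable a w}) (Reachable.refl a) ha hn
    (fun w hw hwa h => hno w hwa h hw)
  exact hb (Reachable.trans hv hvb.reachable)

end Pool.Agent.H99.W
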