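import Mathlib
import Pool.Agent.H99.W.RoomSy
import Pool.Agent.H91.W.Bank

set_option autoImplicit false
open Finset

/-! # Transport between the tile frame and the canonical frames of the two rooms of a horizontal chord

`syUp` : upper room, `syLo` : lower room. Both keep left and right. The canonical height is `v.1 + v.2`,
the canonical abscissa `v.1 - v.2`. -/

namespace Pool.Agent.H99.W

open Pool.Agent.H75.Perc Pool.Agent.H75.TwoArm Pool.Agent.H60.Q1 Pool.Agent.H99.NC Pool.Agent.H91.W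

/-- symmetry for the upper room -/
def syUp : SyF := syFY.comp syFD

/-- symmetry for the lower room -/
def syLo : SyF := syFY

lemma syUp_G (e : ℤ × ℤ) : syUp.G e = (e.2, -e.1) := by
  change ((syFD.G e).1, 2 * 0 - (syFD.G e).2) = _
  change (e.2, 2 * 0 - e.1) = _
  simp

lemma syUp_G' (e : ℤ × ℤ) : syUp.G' e = (-e.2, e.1) := by
  change ((2 * 0 - e.2 : ℤ), e.1) = _
  simp

lemma syUp_g (e : ℤ × ℤ) : syUp.g e = (e.2, -e.1) := by
  change (e.2, 0 - e.1) = _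
  simp

lemma syUp_g' (e : ℤ × ℤ) : syUp.g' e = (-e.2, e.1) := by
  change ((0 - e.2 : ℤ), e.1) = _
  simp

lemma syUp_h (e : ℤ × ℤ) : syUp.h e = (e.2, 1 - e.1) := rfl

lemma syLo_G (e : ℤ × ℤ) : syLo.G e = (e.1, -e.2) := by
  change (e.1, 2 * 0 - e.2) = _
  simp

lemma syLo_G' (e : ℤ × ℤ) : syLo.G' e = (e.1, -e.2) := by
  change (e.1, 2 * 0 - e.2) = _
  simp

lemma syLo_g (e : ℤ × ℤ) : syLo.g e = (e.1, -e.2) := by
  change (e.1, 0 - e.2) = _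
  simp

lemma syLo_g' (e : ℤ × ℤ) : syLo.g' e = (e.1, -e.2) := by
  change (e.1, 0 - e.2) = _
  simp

lemma syLo_h (e : ℤ × ℤ) : syLo.h e = (e.1, 1 - e.2) := rfl

/-- a path of the canonical frame in true coordinates -/
theorem co_back (Φ : SyF) {η : Finset (ℤ × ℤ)} {v v' : ℤ × ℤ} (h : Co η v v') :
    Co (η.image Φ.G') (Φ.g' v) (Φ.g' v') := by
  rw [← Φ.toSy.co_iff, Φ.gg', Φ.gg']
  refine h.mono fun l hl => ?_
  rw [Φ.toSy.mem_map]
  exact mem_image_of_mem _ hl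

lemma mem_BR_up {c : ℤ × ℤ} {r : ℤ} {l : ℤ × ℤ} : l ∈ BR (c.2, -c.1) r ↔ syUp.G' l ∈ BR c r := by
  rw [syUp_G', Pool.Agent.H91.W.mem_BR, Pool.Agent.H91.W.mem_BR]
  simp only
  omega

lemma mem_BR_lo {c : ℤ × ℤ} {r : ℤ} {l : ℤ × ℤ} : l ∈ BR (c.1, -c.2) r ↔ syLo.G' l ∈ BR c r := by
  rw [syLo_G', Pool.Agent.H91.W.mem_BR, Pool.Agent.H91.W.mem_BR]
  simp only
  omega

lemma mem_Rg_up {c : ℤ × ℤ} {a b : ℤ} {l : ℤ × ℤ} :
    l ∈ Rg (c.2, -c.1) a b ↔ syUp.G' l ∈ Rg c a b := by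
  rw [mem_Rg, mem_Rg, mem_BR_up, mem_BR_up]

lemma mem_Rg_lo {c : ℤ × ℤ} {a b : ℤ} {l : ℤ × ℤ} :
    l ∈ Rg (c.1, -c.2) a b ↔ syLo.G' l ∈ Rg c a b := by
  rw [mem_Rg, mem_Rg, mem_BR_lo, mem_BR_lo]

end Pool.Agent.H99.W
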