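import Mathlib
import Pool.Agent.H1.W.Chord
import Pool.Agent.H45.W.Sym
import Pool.Agent.H99.W.Tf

set_option autoImplicit false
open Finset

/-! # The face functions of the two rooms at a horizontal chord (Route W, module D7c, first part)

Tile coordinates `tX`, `tY` of `H1/W/Chord`. `room_up` : upper room `{tp (tX e) ≤ tY e}` with an antitone
profile `tp` on all of `ℤ`, path `A` from the bank vertex `p` to the bank vertex `p'`. The face function is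
constant across all room labels off `A`; at every room or bank face whose ray downwards avoids `A` it is
`1` iff `p.1 < f.1 ≤ p'.1`; it is `0` outside the box. `rooms` : both rooms, the structure `Rm`. -/

namespace Pool.Agent.H99.W

open Pool.Agent.H75.Perc Pool.Agent.H75.TwoArm Pool.Agent.H60.Q1 Pool.Agent.H13.W Pool.Agent.H1.W

/-- **The face function of the upper room.** Box `[a,b] × [c,d]`, `k` = lower bound of the heights. -/
theorem room_up {tp : ℤ → ℤ} (tpa : ∀ x y, x ≤ y → tp y ≤ tp x) {A : Finset (ℤ × ℤ)} {p p' : ℤ × ℤ}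
    {k : ℤ} (hA : ∀ l ∈ A, (l.1 + l.2) % 2 = 1 ∧ tp (tX l) ≤ tY l ∧ k ≤ tY l)
    (k1 : k ≤ p.2 - p.1) (k2 : k ≤ p'.2 - p'.1)
    (hp : p.2 - p.1 ≤ tp (p.1 + p.2 - 1)) (hp' : p'.2 - p'.1 ≤ tp (p'.1 + p'.2 - 1))
    (hpp : p.1 < p'.1) (h : Co A p p') {a b c d : ℤ}
    (hbox : ∀ l ∈ A, (2 * a ≤ l.1 ∧ l.1 ≤ 2 * b) ∧ (2 * c ≤ l.2 ∧ l.2 ≤ 2 * d))
    (b1 : a ≤ p.1) (b2 : p'.1 ≤ b) (b3 : c ≤ k + p.1) (b4 : p.2 ≤ d) (b5 : p'.2 ≤ d) :
    ∃ S : ℤ × ℤ → ZMod 2,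
      (∀ l : ℤ × ℤ, (l.1 + l.2) % 2 = 1 → tp (tX l) ≤ tY l → l ∉ A → FC S l) ∧
      (∀ f : ℤ × ℤ, tp (f.1 + f.2 - 1) ≤ f.2 - f.1 →
        (∀ t : ℕ, ((2 * f.1 - 1, 2 * f.2 - 2 - 2 * (t : ℤ)) : ℤ × ℤ) ∉ A) →
        S f = ind (p.1 < f.1 ∧ f.1 ≤ p'.1)) ∧
      (∀ f : ℤ × ℤ, Out a b c d f → S f = 0) := by
  set E : Finset (ℤ × ℤ) := (Bx a b c d).filter fun l => tp (tX l) ≤ tY l ∧ k ≤ tY l with hE
  -- a room face or room tile below the wall is right of the ray of `p'`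
  have hright : ∀ X Y : ℤ, tp X ≤ Y → Y < k → p'.1 * 2 < X - Y := by
    intro X Y h1 h2
    by_contra hcon
    have h3 := tpa X (p'.1 + p'.2 - 1) (by omega)
    omega
  have hEm : ∀ l, l ∈ E ↔ (l ∈ Bx a b c d ∧ tp (tX l) ≤ tY l ∧ k ≤ tY l) := by
    intro l; rw [hE, mem_filter]
  have hAE : A ⊆ E := by
    intro l hl
    obtain ⟨g1, g2, g4⟩ := hA l hl
    have g3 := hbox l hl
    rw [hEm, mem_Bx]
    exact ⟨⟨g3.1, g3.2, g1⟩, g2, g4⟩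
  have hray : ∀ r : ℤ × ℤ, r.2 - r.1 ≤ tp (r.1 + r.2 - 1) → ∀ t : ℕ, ∀ l ∈ E,
      syUp.G l ≠ (2 * (syUp.g r).1 - 1 - 2 * (t : ℤ), 2 * (syUp.g r).2) := by
    intro r hr t l hl he
    rw [syUp_G, syUp_g] at he
    simp only [Prod.mk.injEq] at he
    have g1 := ((hEm l).1 hl).2.1
    have g2 : tX l = r.1 + r.2 - 1 - t := by unfold tX; omega
    have g3 : tY l = r.2 - r.1 - 1 - t := by unfold tY; omega
    rw [g2, g3] at g1
    have := tpa (r.1 + r.2 - 1 - t) (r.1 + r.2 - 1) (by omega)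
    omega
  have gp : ∀ r : ℤ × ℤ, (syUp.g r).1 = r.2 ∧ (syUp.g r).2 = -r.1 := by
    intro r; rw [syUp_g]; exact ⟨rfl, rfl⟩
  have hh : ∀ f : ℤ × ℤ, (syUp.h f).1 = f.2 ∧ (syUp.h f).2 = 1 - f.1 := fun f => ⟨rfl, rfl⟩
  obtain ⟨S, s1, s2, s3, s4⟩ := ucol_stair_sy syUp (a := c) (b := d) (c := -b) (d := -a) (k := k)
    (E := E) (A := A) (p := p) (q := p')
    (by
      intro l hl
      obtain ⟨g1, g2, g3⟩ := (hEm l).1 hl
      rw [mem_Bx] at g1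
      unfold tY at g3
      rw [syUp_G, mem_DX, mem_Bx]
      simp only
      omega)
    hAE (fun t _ => hray p hp t) (fun t _ => hray p' hp' t)
    (by rw [(gp p).1, (gp p).2]; omega) (by rw [(gp p').1, (gp p').2]; omega)
    (by rw [(gp p').2, (gp p).2]; omega) (by rw [(gp p).2]; omega) (by rw [(gp p).1]; omega)
    (by rw [(gp p').1]; omega) (by rw [(gp p').2]; omega) (by rw [(gp p').2]; omega)
    (by rw [(gp p).2]; omega) h
  simp only [(gp p).2, (gp p').2, (hh _).1, (hh _).2] at s2 s3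
  have hout : ∀ f : ℤ × ℤ, Out a b c d f → S f = 0 := by
    intro f hf
    refine s4 f ?_
    unfold Out at hf ⊢
    rw [(hh f).1, (hh f).2]
    omega
  have hval : ∀ f : ℤ × ℤ, tp (f.1 + f.2 - 1) ≤ f.2 - f.1 →
      (∀ t : ℕ, ((2 * f.1 - 1, 2 * f.2 - 2 - 2 * (t : ℤ)) : ℤ × ℤ) ∉ A) →
      S f = ind (p.1 < f.1 ∧ f.1 ≤ p'.1) := by
    intro f hf1 hf2
    rcases le_or_gt k (f.2 - f.1) with h1 | h1
    · rw [s2 f (by omega) ?_]
      · unfold ind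
        by_cases h2 : p.1 < f.1 ∧ f.1 ≤ p'.1
        · rw [if_pos h2, if_pos (by omega)]
        · rw [if_neg h2, if_neg (by omega)]
      · intro t _ l hl he
        rw [syUp_G] at he
        simp only [Prod.mk.injEq] at he
        refine hf2 t ?_
        have : l = ((2 * f.1 - 1, 2 * f.2 - 2 - 2 * (t : ℤ)) : ℤ × ℤ) :=
          Prod.ext (by simp only; omega) (by simp only; omega)
        rwa [← this]
    · rw [s3 f (by omega)]
      have := hright _ _ hf1 h1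
      rw [ind_false (by omega)]
  refine ⟨S, ?_, hval, hout⟩
  intro l hl hr hlA
  by_cases hlB : l ∈ Bx a b c d
  · rcases le_or_gt k (tY l) with h1 | h1
    · exact s1 l ((hEm l).2 ⟨hlB, hr, h1⟩) hlA
    · -- below the wall
      have h2 := hright _ _ hr h1
      have key : ∀ f g : ℤ × ℤ, IsUnit4 (g - f) → f + g - (1, 1) = l → S f = 0 := by
        intro f g hfg hl'
        obtain ⟨f1, f2⟩ := f
        obtain ⟨g1, g2⟩ := g
        unfold IsUnit4 at hfg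
        rw [← hl'] at h1 h2 hr
        unfold tY at h1
        unfold tX tY at h2
        simp only [Prod.ext_iff, Prod.fst_sub, Prod.snd_sub, Prod.fst_add, Prod.snd_add] at hfg h1 h2
        rcases le_or_gt (f2 + (1 - f1)) k with h3 | h3
        · exact s3 (f1, f2) (by simp only; exact h3)
        · have h4 := s2 (f1, f2) (by simp only; omega) (by
            intro t ht
            simp only at ht
            exfalso
            omega)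
          rw [h4]
          simp only
          rw [if_neg (by omega)]
      intro f g hfg hl'
      rw [key f g hfg hl']
      have h3 : IsUnit4 (f - g) := by
        unfold IsUnit4 at hfg ⊢
        simp only [Prod.ext_iff, Prod.fst_sub, Prod.snd_sub] at hfg ⊢
        omega
      exact (key g f h3 (by rw [← hl']; ring)).symm
  · -- outside the box
    intro f g hfg hl'
    obtain ⟨f1, f2⟩ := f
    obtain ⟨g1, g2⟩ := g
    rw [mem_Bx, ← hl'] at hlB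
    rw [← hl'] at hl
    unfold IsUnit4 at hfg
    simp only [Prod.ext_iff, Prod.fst_sub, Prod.snd_sub, Prod.fst_add, Prod.snd_add] at hfg hlB hl
    rw [hout (f1, f2) (by unfold Out; simp only; omega), hout (g1, g2) (by unfold Out; simp only; omega)]

/-- the swap of the two coordinates -/
def swE : (ℤ × ℤ) ↪ (ℤ × ℤ) := ⟨fun e => (e.2, e.1), by
  intro a b h
  simp only [Prod.mk.injEq] at h
  exact Prod.ext h.2 h.1⟩

lemma mem_swE {A : Finset (ℤ × ℤ)} {x y : ℤ} : ((x, y) : ℤ × ℤ) ∈ A.map swE ↔ ((y, x) : ℤ × ℤ) ∈ A := by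
  rw [mem_map]
  constructor
  · rintro ⟨l, hl, he⟩
    change (l.2, l.1) = (x, y) at he
    rw [Prod.mk.injEq] at he
    rwa [show ((y, x) : ℤ × ℤ) = l from Prod.ext he.2.symm he.1.symm]
  · intro h
    exact ⟨_, h, rfl⟩

/-- **The face function of the lower room.** Box `[a,b] × [c,d]`, `k` = upper bound of the heights. -/
theorem room_lo {bt : ℤ → ℤ} (btm : ∀ x y, x ≤ y → bt x ≤ bt y) {A : Finset (ℤ × ℤ)} {q q' : ℤ × ℤ}
    {k : ℤ} (hA : ∀ l ∈ A, (l.1 + l.2) % 2 = 1 ∧ tY l < bt (tX l) ∧ tY l < k)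
    (k1 : q.2 - q.1 ≤ k) (k2 : q'.2 - q'.1 ≤ k)
    (hq : bt (q.1 + q.2 - 1) ≤ q.2 - q.1) (hq' : bt (q'.1 + q'.2 - 1) ≤ q'.2 - q'.1)
    (hqq : q.2 < q'.2) (h : Co A q q') {a b c d : ℤ}
    (hbox : ∀ l ∈ A, (2 * a ≤ l.1 ∧ l.1 ≤ 2 * b) ∧ (2 * c ≤ l.2 ∧ l.2 ≤ 2 * d))
    (b1 : c ≤ q.2) (b2 : q'.2 ≤ d) (b3 : a ≤ q.2 - k) (b4 : q.1 ≤ b) (b5 : q'.1 ≤ b) :
    ∃ S : ℤ × ℤ → ZMod 2,
      (∀ l : ℤ × ℤ, (l.1 + l.2) % 2 = 1 → tY l < bt (tX l) → l ∉ A → FC S l) ∧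
      (∀ f : ℤ × ℤ, f.2 - f.1 ≤ bt (f.1 + f.2 - 1) →
        (∀ t : ℕ, ((2 * f.1 - 2 - 2 * (t : ℤ), 2 * f.2 - 1) : ℤ × ℤ) ∉ A) →
        S f = ind (q.2 < f.2 ∧ f.2 ≤ q'.2)) ∧
      (∀ f : ℤ × ℤ, Out a b c d f → S f = 0) := by
  have hunit : ∀ u v : ℤ × ℤ, IsUnit4 (v - u) → IsUnit4 ((v.2, v.1) - (u.2, u.1) : ℤ × ℤ) := by
    intro u v huv
    unfold IsUnit4 at huv ⊢
    simp only [Prod.ext_iff, Prod.fst_sub, Prod.snd_sub] at huv ⊢
    omega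
  have hco : Co (A.map swE) (q.2, q.1) (q'.2, q'.1) := by
    have key : ∀ v, Co A q v → Co (A.map swE) (q.2, q.1) (v.2, v.1) := by
      intro v hv
      induction hv with
      | refl => exact Co.refl _ _
      | @tail u v _ huv ih =>
        refine ih.tail ⟨hunit _ _ huv.1, ?_⟩
        rw [Prod.mk_add_mk, mem_swE]
        exact huv.2
    exact key q' h
  have hA' : ∀ l ∈ A.map swE, (l.1 + l.2) % 2 = 1 ∧ (fun x => - bt x) (tX l) ≤ tY l ∧ -k ≤ tY l := by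
    rintro ⟨x, y⟩ hl
    rw [mem_swE] at hl
    obtain ⟨g1, g2, g3⟩ := hA _ hl
    unfold tX tY at g2
    unfold tY at g3
    unfold tX tY
    simp only at g1 g2 g3 ⊢
    rw [show x + y - 1 = y + x - 1 by ring]
    omega
  have hbox' : ∀ l ∈ A.map swE, (2 * c ≤ l.1 ∧ l.1 ≤ 2 * d) ∧ (2 * a ≤ l.2 ∧ l.2 ≤ 2 * b) := by
    rintro ⟨x, y⟩ hl
    rw [mem_swE] at hl
    have := hbox _ hl
    simp only at this ⊢
    omega
  obtain ⟨S, s1, s2, s3⟩ := room_up (tp := fun x => - bt x) (fun x y hxy => neg_le_neg (btm x y hxy))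
    (A := A.map swE) (p := (q.2, q.1)) (p' := (q'.2, q'.1)) (k := -k) hA' (by simp only; omega)
    (by simp only; omega) (by simp only; rw [add_comm]; omega) (by simp only; rw [add_comm]; omega)
    hqq hco (a := c) (b := d) (c := a) (d := b) hbox' b1 b2 (by simp only; omega) b4 b5
  refine ⟨fun f => S (f.2, f.1), ?_, ?_, ?_⟩
  · intro l hl hr hlA f g hfg hl'
    refine s1 (l.2, l.1) (by simp only; omega) ?_ (by rwa [mem_swE]) _ _ (hunit f g hfg) ?_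
    · unfold tX tY at hr ⊢
      simp only
      rw [add_comm l.2 l.1]
      omega
    · rw [← hl']
      rfl
  · intro f hf1 hf2
    refine s2 (f.2, f.1) (by simp only; rw [add_comm f.2 f.1]; omega) ?_
    intro t
    simp only
    rw [mem_swE]
    exact hf2 t
  · intro f hf
    refine s3 _ ?_
    unfold Out at hf ⊢
    simp only
    tauto

/-- **Both rooms.** -/
theorem rooms {Λ : Set (ℤ × ℤ)} {w A A' : Finset (ℤ × ℤ)} {tp bt : ℤ → ℤ} {p p' q q' : ℤ × ℤ}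
    {k k' : ℤ} (hΛ : ∀ e ∈ Λ, (e.1 + e.2) % 2 = 1) (tpa : ∀ x y, x ≤ y → tp y ≤ tp x)
    (btm : ∀ x y, x ≤ y → bt x ≤ bt y)
    (hA : ∀ l ∈ A, l ∈ w ∧ (l.1 + l.2) % 2 = 1 ∧ tp (tX l) ≤ tY l ∧ k ≤ tY l)
    (hA' : ∀ l ∈ A', l ∈ w ∧ (l.1 + l.2) % 2 = 1 ∧ tY l < bt (tX l) ∧ tY l < k')
    (k1 : k ≤ p.2 - p.1) (k2 : k ≤ p'.2 - p'.1) (k3 : q.2 - q.1 ≤ k') (k4 : q'.2 - q'.1 ≤ k')
    (hp : p.2 - p.1 ≤ tp (p.1 + p.2 - 1)) (hp' : p'.2 - p'.1 ≤ tp (p'.1 + p'.2 - 1))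
    (hq : bt (q.1 + q.2 - 1) ≤ q.2 - q.1) (hq' : bt (q'.1 + q'.2 - 1) ≤ q'.2 - q'.1)
    (hpp : p.1 < p'.1) (hqq : q.2 < q'.2) (h : Co A p p') (h' : Co A' q q') {a b c d : ℤ}
    (hbox : ∀ l ∈ A ∪ A', (2 * a ≤ l.1 ∧ l.1 ≤ 2 * b) ∧ (2 * c ≤ l.2 ∧ l.2 ≤ 2 * d))
    (b1 : a ≤ p.1) (b2 : p'.1 ≤ b) (b3 : c ≤ k + p.1) (b4 : p.2 ≤ d) (b5 : p'.2 ≤ d)
    (c1 : c ≤ q.2) (c2 : q'.2 ≤ d) (c3 : a ≤ q.2 - k') (c4 : q.1 ≤ b) (c5 : q'.1 ≤ b) :
    ∃ Su Sl : ℤ × ℤ → ZMod 2, Rm Λ w tp bt p p' q q' Su Sl ∧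
      (∀ f : ℤ × ℤ, tp (f.1 + f.2 - 1) ≤ f.2 - f.1 →
        (∀ t : ℕ, ((2 * f.1 - 1, 2 * f.2 - 2 - 2 * (t : ℤ)) : ℤ × ℤ) ∉ A) →
        Su f = ind (p.1 < f.1 ∧ f.1 ≤ p'.1)) ∧
      (∀ f : ℤ × ℤ, f.2 - f.1 ≤ bt (f.1 + f.2 - 1) →
        (∀ t : ℕ, ((2 * f.1 - 2 - 2 * (t : ℤ), 2 * f.2 - 1) : ℤ × ℤ) ∉ A') →
        Sl f = ind (q.2 < f.2 ∧ f.2 ≤ q'.2)) ∧
      (∀ f : ℤ × ℤ, Out a b c d f → Su f = 0 ∧ Sl f = 0) := by
  obtain ⟨Su, s1, s2, s3⟩ := room_up tpa (fun l hl => (hA l hl).2) k1 k2 hp hp' hpp h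
    (fun l hl => hbox l (mem_union_left _ hl)) b1 b2 b3 b4 b5
  obtain ⟨Sl, r1, r2, r3⟩ := room_lo btm (fun l hl => (hA' l hl).2) k3 k4 hq hq' hqq h'
    (fun l hl => hbox l (mem_union_right _ hl)) c1 c2 c3 c4 c5
  refine ⟨Su, Sl, ⟨hΛ, ?_, ?_, ?_, ?_⟩, s2, r2, fun f hf => ⟨s3 f hf, r3 f hf⟩⟩
  · intro e he h1 h2
    exact s1 e (hΛ e he) h1 fun h3 => h2 (hA e h3).1
  · intro e he h1 h2
    exact r1 e (hΛ e he) h1 fun h3 => h2 (hA' e h3).1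
  · intro f h1 h2
    refine s2 f h1 fun t ht => ?_
    have g1 := (hA _ ht).2.2.1
    have g2 : tX ((2 * f.1 - 1, 2 * f.2 - 2 - 2 * (t : ℤ)) : ℤ × ℤ) = f.1 + f.2 - 2 - t := by
      unfold tX; simp only; omega
    have g3 : tY ((2 * f.1 - 1, 2 * f.2 - 2 - 2 * (t : ℤ)) : ℤ × ℤ) = f.2 - f.1 - 1 - t := by
      unfold tY; simp only; omega
    rw [g2, g3] at g1
    have := tpa (f.1 + f.2 - 2 - t) (f.1 + f.2 - 2) (by omega)
    omega
  · intro f h1 h2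
    refine r2 f h1 fun t ht => ?_
    have g1 := (hA' _ ht).2.2.1
    have g2 : tX ((2 * f.1 - 2 - 2 * (t : ℤ), 2 * f.2 - 1) : ℤ × ℤ) = f.1 + f.2 - 2 - t := by
      unfold tX; simp only; omega
    have g3 : tY ((2 * f.1 - 2 - 2 * (t : ℤ), 2 * f.2 - 1) : ℤ × ℤ) = f.2 - f.1 + t := by
      unfold tY; simp only; omega
    rw [g2, g3] at g1
    have := btm (f.1 + f.2 - 2 - t) (f.1 + f.2 - 2) (by omega)
    omega

end Pool.Agent.H99.W
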