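import Mathlib
import Pool.Agent.H99.W.RoomUp
import Pool.Agent.H55.W.ChordD

set_option autoImplicit false
open Finset

/-! # From the blocking event of a chord of plates to the geometry of one exit (module D7c)

`tpC`, `btC` : the profiles of 55's chord `Ch`, clamped to the window, as functions on `ℤ`.
`setup` : the feet of a block, the two face functions (`Rm`), their values inside and outside. -/

namespace Pool.Agent.H99.W

open Pool.Agent.H75.Perc Pool.Agent.H75.TwoArm Pool.Agent.H60.Q1 Pool.Agent.H13.W Pool.Agent.H1.W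
open Pool.Agent.H55.W
open Pool.Agent.H91.W (RU RL mem_RU mem_RL Rg mem_Rg mem_BR)
open Pool.Agent.H99.NC (BR)

/-- clamp to the window `|x - c0| < 2 R` -/
def clx (c : ℤ × ℤ) (R x : ℤ) : ℤ := max (c.1 + c.2 - 2 * R) (min x (c.1 + c.2 + 2 * R - 1))

/-- upper profile -/
def tpC (C : Ch) (c : ℤ × ℤ) (R x : ℤ) : ℤ := C.U (clx c R x)

/-- lower profile -/
def btC (C : Ch) (c : ℤ × ℤ) (R x : ℤ) : ℤ := -C.L (clx c R x)

variable {C : Ch} {c : ℤ × ℤ} {R τ u : ℤ}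

lemma clx_eq {x : ℤ} (h1 : c.1 + c.2 - 2 * R ≤ x) (h2 : x < c.1 + c.2 + 2 * R) : clx c R x = x := by
  unfold clx; omega

lemma clx_mem (hR : 0 < R) (x : ℤ) : c.1 + c.2 - 2 * R ≤ clx c R x ∧ clx c R x < c.1 + c.2 + 2 * R := by
  unfold clx; omega

lemma clx_mono {x y : ℤ} (h : x ≤ y) : clx c R x ≤ clx c R y := by
  unfold clx; omega

lemma plx_win (hN : 0 < C.N) {x : ℤ} (h1 : c.1 + c.2 - 2 * R ≤ x) (h2 : x < c.1 + c.2 + 2 * R) :
    Wn C.X0 C.N (c.1 + c.2) (2 * R) (plx C.X0 C.N x) := by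
  have h3 := plx_spec (X0 := C.X0) (N := C.N) (x := x) hN
  unfold Wn
  constructor <;> linarith

lemma plx_mono (hN : 0 < C.N) {x y : ℤ} (h : x ≤ y) : plx C.X0 C.N x ≤ plx C.X0 C.N y := by
  have h3 := plx_spec (X0 := C.X0) (N := C.N) (x := x) hN
  exact plx_le hN (by linarith)

lemma tpC_anti (hC : C.Ok c R τ) (hR : 0 < R) : ∀ x y, x ≤ y → tpC C c R y ≤ tpC C c R x := by
  intro x y h
  have hN := hC.hN
  have m1 := clx_mem (c := c) hR x
  have m2 := clx_mem (c := c) hR y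
  exact hC.U.anti _ _ (plx_win (by omega) m1.1 m1.2) (plx_win (by omega) m2.1 m2.2)
    (plx_mono (by omega) (clx_mono h))

lemma btC_mono (hC : C.Ok c R τ) (hR : 0 < R) : ∀ x y, x ≤ y → btC C c R x ≤ btC C c R y := by
  intro x y h
  have hN := hC.hN
  have m1 := clx_mem (c := c) hR x
  have m2 := clx_mem (c := c) hR y
  exact neg_le_neg (hC.L.anti _ _ (plx_win (by omega) m1.1 m1.2) (plx_win (by omega) m2.1 m2.2)
    (plx_mono (by omega) (clx_mono h)))

lemma tpC_range (hC : C.Ok c R τ) (hR : 0 < R) (x : ℤ) :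
    c.2 - c.1 ≤ tpC C c R x ∧ tpC C c R x ≤ c.2 - c.1 + τ := by
  have hN := hC.hN
  have m1 := clx_mem (c := c) hR x
  have w := plx_win (C := C) (by omega) m1.1 m1.2
  exact ⟨hC.U.lo _ w, hC.U.hi _ w⟩

lemma btC_range (hC : C.Ok c R τ) (hR : 0 < R) (x : ℤ) :
    c.2 - c.1 - τ ≤ btC C c R x ∧ btC C c R x ≤ c.2 - c.1 := by
  have hN := hC.hN
  have m1 := clx_mem (c := c) hR x
  have w := plx_win (C := C) (by omega) m1.1 m1.2
  have h1 := hC.L.lo _ w
  have h2 := hC.L.hi _ w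
  unfold btC Ch.L
  omega

/-- the profile over a plate of the window -/
lemma tpC_plate (hC : C.Ok c R τ) {m x : ℤ} (h1 : C.X0 + 2 * C.N * m ≤ x)
    (h2 : x < C.X0 + 2 * C.N * (m + 1)) (h3 : c.1 + c.2 - 2 * R ≤ x) (h4 : x < c.1 + c.2 + 2 * R) :
    tpC C c R x = C.TU m := by
  have hN := hC.hN
  unfold tpC Ch.U
  rw [clx_eq h3 h4]
  congr 1
  have g1 := plx_le (X0 := C.X0) (N := C.N) (x := x) (m := m) (by omega) h1
  have g2 := plx_lt (X0 := C.X0) (N := C.N) (x := x) (m := m + 1) (by omega) h2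
  omega

lemma btC_plate (hC : C.Ok c R τ) {m x : ℤ} (h1 : C.X0 + 2 * C.N * m ≤ x)
    (h2 : x < C.X0 + 2 * C.N * (m + 1)) (h3 : c.1 + c.2 - 2 * R ≤ x) (h4 : x < c.1 + c.2 + 2 * R) :
    btC C c R x = -C.TL m := by
  have hN := hC.hN
  unfold btC Ch.L
  rw [clx_eq h3 h4]
  congr 2
  have g1 := plx_le (X0 := C.X0) (N := C.N) (x := x) (m := m) (by omega) h1
  have g2 := plx_lt (X0 := C.X0) (N := C.N) (x := x) (m := m + 1) (by omega) h2
  omega

/-- the feet of a block at scale `u` -/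
structure Feet (C : Ch) (c : ℤ × ℤ) (R τ u j i : ℤ) (p p' q q' : ℤ × ℤ) : Prop where
  ok : C.Ok c R τ
  hu : 8 * C.N ≤ u
  hR : 30 * u ≤ R
  hj : C.isW c u j
  hi : C.isE c u i
  p1 : C.bU j p
  p2 : C.bU i p'
  q1 : C.bL j q
  q2 : C.bL i q'

/-- **The two face functions of a block.** -/
theorem Feet.setup {j i : ℤ} {p p' q q' : ℤ × ℤ} (H : Feet C c R τ u j i p p' q q')
    {Λ : Set (ℤ × ℤ)} {w ω : Finset (ℤ × ℤ)} (hΛ : ∀ e ∈ Λ, (e.1 + e.2) % 2 = 1)
    (hU : ∀ e ∈ ω, e ∈ C.rU c u → e ∈ w) (hL : ∀ e ∈ ω, e ∈ C.rL c u → e ∈ w)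
    (h1 : Co (ω ∩ C.rU c u) p p') (h2 : Co (ω ∩ C.rL c u) q q') :
    ∃ Su Sl : ℤ × ℤ → ZMod 2, Rm Λ w (tpC C c R) (btC C c R) p p' q q' Su Sl ∧
      (∀ f : ℤ × ℤ, |f.1 - c.1| ≤ 9 * u → |f.2 - c.2| ≤ 9 * u →
        Fc (tpC C c R) (btC C c R) (C.X0 + 2 * C.N * j) (C.X0 + 2 * C.N * (i + 1)) Su Sl f = 1) ∧
      (∀ f : ℤ × ℤ, (22 * u < |f.1 - c.1| ∨ 22 * u < |f.2 - c.2|) →
        Fc (tpC C c R) (btC C c R) (C.X0 + 2 * C.N * j) (C.X0 + 2 * C.N * (i + 1)) Su Sl f = 0) := by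
  have hC := H.ok
  have hN := hC.hN
  have hτ := hC.hτ
  have hτN := hC.hτN
  have hu := H.hu
  have hR := H.hR
  have hR0 : 0 < R := by omega
  obtain ⟨w1, w2⟩ := H.hj
  obtain ⟨e1, e2⟩ := H.hi
  obtain ⟨p1, p2, p3⟩ := H.p1
  obtain ⟨p1', p2', p3'⟩ := H.p2
  obtain ⟨q1, q2, q3⟩ := H.q1
  obtain ⟨q1', q2', q3'⟩ := H.q2
  have ra := tpC_anti hC hR0
  have rb := btC_mono hC hR0
  have rr := tpC_range hC hR0
  have rs := btC_range hC hR0
  have tj : tpC C c R (p.1 + p.2 - 1) = C.TU j :=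
    tpC_plate hC (by omega) (by omega) (by omega) (by omega)
  have ti : tpC C c R (p'.1 + p'.2 - 1) = C.TU i :=
    tpC_plate hC (by omega) (by omega) (by omega) (by omega)
  have bj : btC C c R (q.1 + q.2 - 1) = -C.TL j :=
    btC_plate hC (by omega) (by omega) (by omega) (by omega)
  have bi : btC C c R (q'.1 + q'.2 - 1) = -C.TL i :=
    btC_plate hC (by omega) (by omega) (by omega) (by omega)
  have r1 := rr (p.1 + p.2 - 1)
  have r2 := rr (p'.1 + p'.2 - 1)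
  have r3 := rs (q.1 + q.2 - 1)
  have r4 := rs (q'.1 + q'.2 - 1)
  have hAU : ∀ l ∈ ω ∩ C.rU c u, l ∈ w ∧ (l.1 + l.2) % 2 = 1 ∧ tpC C c R (tX l) ≤ tY l ∧
      c.2 - c.1 ≤ tY l ∧ l ∈ BR c (22 * u) ∧ l ∉ BR c (10 * u - 1) := by
    intro l hl
    obtain ⟨g1, g2⟩ := mem_inter.1 hl
    have g2' := g2
    unfold Ch.rU at g2
    obtain ⟨g3, g4⟩ := mem_RU.1 g2
    obtain ⟨g5, g6⟩ := mem_Rg.1 g3
    have g7 := g5
    rw [mem_BR] at g7
    have g8 : tpC C c R (tX l) = C.U (tX l) := by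
      unfold tpC
      rw [clx_eq (by unfold tX; omega) (by unfold tX; omega)]
    have g9 : tpC C c R (tX l) ≤ tY l := by rw [g8]; exact g4
    exact ⟨hU l g1 g2', g7.2.2, g9, (rr _).1.trans g9, g5, g6⟩
  have hAL : ∀ l ∈ ω ∩ C.rL c u, l ∈ w ∧ (l.1 + l.2) % 2 = 1 ∧ tY l < btC C c R (tX l) ∧
      tY l < c.2 - c.1 ∧ l ∈ BR c (22 * u) ∧ l ∉ BR c (10 * u - 1) := by
    intro l hl
    obtain ⟨g1, g2⟩ := mem_inter.1 hl
    have g2' := g2
    unfold Ch.rL at g2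
    obtain ⟨g3, g4⟩ := mem_RL.1 g2
    obtain ⟨g5, g6⟩ := mem_Rg.1 g3
    have g7 := g5
    rw [mem_BR] at g7
    have g8 : btC C c R (tX l) = -C.L (tX l) := by
      unfold btC
      rw [clx_eq (by unfold tX; omega) (by unfold tX; omega)]
    have g9 : tY l < btC C c R (tX l) := by
      rw [g8]
      have g4' : tY l ≤ -1 - C.L (tX l) := g4
      omega
    exact ⟨hL l g1 g2', g7.2.2, g9, g9.trans_le (rs _).2, g5, g6⟩
  obtain ⟨Su, Sl, hRm, su, sl, so⟩ := rooms (Λ := Λ) (w := w) (A := ω ∩ C.rU c u)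
    (A' := ω ∩ C.rL c u) (tp := tpC C c R) (bt := btC C c R) (p := p) (p' := p') (q := q) (q' := q')
    (k := c.2 - c.1) (k' := c.2 - c.1) (a := c.1 - 22 * u) (b := c.1 + 22 * u) (c := c.2 - 22 * u)
    (d := c.2 + 22 * u) hΛ ra rb
    (fun l hl => ⟨(hAU l hl).1, (hAU l hl).2.1, (hAU l hl).2.2.1, (hAU l hl).2.2.2.1⟩)
    (fun l hl => ⟨(hAL l hl).1, (hAL l hl).2.1, (hAL l hl).2.2.1, (hAL l hl).2.2.2.1⟩)
    (by omega) (by omega) (by omega) (by omega) (by omega) (by omega) (by omega) (by omega)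
    (by omega) (by omega) h1 h2
    (by
      intro l hl
      have h3 : l ∈ BR c (22 * u) := by
        rcases mem_union.1 hl with h | h
        · exact (hAU l h).2.2.2.2.1
        · exact (hAL l h).2.2.2.2.1
      rw [mem_BR] at h3
      omega)
    (by omega) (by omega) (by omega) (by omega) (by omega) (by omega) (by omega) (by omega)
    (by omega) (by omega)
  refine ⟨Su, Sl, hRm, ?_, ?_⟩
  · rintro ⟨f1, f2⟩ g1 g2
    simp only at g1 g2
    rw [abs_le] at g1 g2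
    unfold Fc
    simp only
    split_ifs with g3 g4
    · rw [su (f1, f2) g3 (fun t ht => ?_)]
      · exact ind_true (by simp only; omega)
      · obtain ⟨-, k2, k3, k4, k5, k6⟩ := hAU _ ht
        refine k6 ?_
        rw [mem_BR] at k5 ⊢
        unfold tY at k4
        simp only at k2 k4 k5 ⊢
        omega
    · rw [sl (f1, f2) g4 (fun t ht => ?_)]
      · exact ind_true (by simp only; omega)
      · obtain ⟨-, k2, k3, k4, k5, k6⟩ := hAL _ ht
        refine k6 ?_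
        rw [mem_BR] at k5 ⊢
        unfold tY at k4
        simp only at k2 k4 k5 ⊢
        omega
    · exact ind_true (by omega)
  · rintro ⟨f1, f2⟩ g1
    simp only at g1
    have hout : Out (c.1 - 22 * u) (c.1 + 22 * u) (c.2 - 22 * u) (c.2 + 22 * u) (f1, f2) := by
      unfold Out
      simp only
      rcases g1 with g1 | g1
      · rcases lt_abs.1 g1 with g1 | g1 <;> omega
      · rcases lt_abs.1 g1 with g1 | g1 <;> omega
    obtain ⟨s1, s2⟩ := so _ hout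
    have k1 := rr (f1 + f2 - 1)
    have k2 := rs (f1 + f2 - 1)
    unfold Fc
    simp only
    split_ifs with g3 g4
    · exact s1
    · exact s2
    · refine ind_false ?_
      rcases g1 with g1 | g1
      · rcases lt_abs.1 g1 with g1 | g1 <;> omega
      · rcases lt_abs.1 g1 with g1 | g1 <;> omega

end Pool.Agent.H99.W
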