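import Mathlib
import Pool.Agent.H99.W.Cut
import Pool.Agent.H1.W.ChordSw

set_option autoImplicit false
open Finset

/-! # The enclosed set of a blocking event of a chord of plates (module D7c)

`Feet.geo` : helper1's geometry `Geo`. `Feet.near`, `Feet.far` : the enclosed set `encl` contains all corners
near `c` and no corner far from `c`. `sg_loc` : the strand graph in a window. `Feet.block` : one exit, all
hypotheses on labels in the window `Qw`. `Feet.blockX` : left plate open, right plate with one deleted row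
and one closed half. `Feet.blockY` : left plate with one deleted row and one closed half, right plate with
two deleted rows, closed between them and open outside. -/

namespace Pool.Agent.H99.W

open Pool.Agent.H75.Perc Pool.Agent.H75.TwoArm Pool.Agent.H60.Q1 Pool.Agent.H13.W Pool.Agent.H1.W
open Pool.Agent.H55.W
open Pool.Agent.H91.W (RU RL mem_RU mem_RL Rg mem_Rg mem_BR)
open Pool.Agent.H99.NC (BR)

variable {C : Ch} {c : ℤ × ℤ} {R τ u : ℤ}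

/-- **The geometry of one exit from the feet of a block.** -/
theorem Feet.geo {j i : ℤ} {p p' q q' : ℤ × ℤ} (H : Feet C c R τ u j i p p' q q')
    {D : Set (ℤ × ℤ)} {Yl Yh : ℤ} (hY : Yl ≤ Yh)
    (lo : ∀ m, C.Win c R m → -C.TL m < Yl) (hi : ∀ m, C.Win c R m → Yh < C.TU m)
    (Drow : ∀ e ∈ D, (e.1 + e.2) % 2 = 1 → Yl ≤ tY e ∧ tY e < Yh) :
    Geo D (tpC C c R) (btC C c R) Yl Yh (C.X0 + 2 * C.N * j) (C.X0 + 2 * C.N * (j + 1))
      (C.X0 + 2 * C.N * i) (C.X0 + 2 * C.N * (i + 1)) p p' q q' := by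
  have hC := H.ok
  have hN := hC.hN
  have hu := H.hu
  have hR := H.hR
  have hR0 : 0 < R := by omega
  obtain ⟨w1, w2⟩ := H.hj
  obtain ⟨e1, e2⟩ := H.hi
  obtain ⟨p1, p2, p3⟩ := H.p1
  obtain ⟨p1', p2', p3'⟩ := H.p2
  obtain ⟨q1, q2, q3⟩ := H.q1
  obtain ⟨q1', q2', q3'⟩ := H.q2
  have ra := tpC_anti hC hR0
  have rb := btC_mono hC hR0
  have ej : C.X0 + 2 * C.N * (j + 1) = C.X0 + 2 * C.N * j + 2 * C.N := by ring
  have ei : C.X0 + 2 * C.N * (i + 1) = C.X0 + 2 * C.N * i + 2 * C.N := by ring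
  have tj : ∀ x, C.X0 + 2 * C.N * j ≤ x → x < C.X0 + 2 * C.N * (j + 1) → tpC C c R x = C.TU j :=
    fun x h1 h2 => tpC_plate hC h1 h2 (by omega) (by omega)
  have ti : ∀ x, C.X0 + 2 * C.N * i ≤ x → x < C.X0 + 2 * C.N * (i + 1) → tpC C c R x = C.TU i :=
    fun x h1 h2 => tpC_plate hC h1 h2 (by omega) (by omega)
  have bj : ∀ x, C.X0 + 2 * C.N * j ≤ x → x < C.X0 + 2 * C.N * (j + 1) → btC C c R x = -C.TL j :=
    fun x h1 h2 => btC_plate hC h1 h2 (by omega) (by omega)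
  have bi : ∀ x, C.X0 + 2 * C.N * i ≤ x → x < C.X0 + 2 * C.N * (i + 1) → btC C c R x = -C.TL i :=
    fun x h1 h2 => btC_plate hC h1 h2 (by omega) (by omega)
  have l1 := tj _ le_rfl (by omega)
  have l2 := ra _ _ (show C.X0 + 2 * C.N * (j + 1) - 1 ≤ C.X0 + 2 * C.N * (j + 1) by omega)
  rw [tj (C.X0 + 2 * C.N * (j + 1) - 1) (by omega) (by omega)] at l2
  have l3 := ti _ le_rfl (by omega)
  have l4 := ra _ _ (show C.X0 + 2 * C.N * (i + 1) - 1 ≤ C.X0 + 2 * C.N * (i + 1) by omega)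
  rw [ti (C.X0 + 2 * C.N * (i + 1) - 1) (by omega) (by omega)] at l4
  have m1 := bj _ le_rfl (by omega)
  have m2 := rb _ _ (show C.X0 + 2 * C.N * (j + 1) - 1 ≤ C.X0 + 2 * C.N * (j + 1) by omega)
  rw [bj (C.X0 + 2 * C.N * (j + 1) - 1) (by omega) (by omega)] at m2
  have m3 := bi _ le_rfl (by omega)
  have m4 := rb _ _ (show C.X0 + 2 * C.N * (i + 1) - 1 ≤ C.X0 + 2 * C.N * (i + 1) by omega)
  rw [bi (C.X0 + 2 * C.N * (i + 1) - 1) (by omega) (by omega)] at m4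
  refine ⟨ra, rb, ?_, ?_, hY, by omega, by omega, by omega, Drow, ?_, ?_, ?_, ?_, ?_, ?_, ?_, ?_,
    ?_, ?_, ?_, ?_, ?_, ?_, ?_, ?_⟩
  · intro x
    have m := clx_mem (c := c) hR0 x
    exact lo _ (plx_win (by omega) m.1 m.2)
  · intro x
    have m := clx_mem (c := c) hR0 x
    exact hi _ (plx_win (by omega) m.1 m.2)
  · rw [tj _ p2.le p3]; omega
  · rw [tj _ (by omega) (by omega)]; omega
  · rw [ti _ p2'.le p3']; omega
  · rw [ti _ (by omega) (by omega)]; omega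
  · rw [bj _ q2.le q3]; omega
  · rw [bj _ (by omega) (by omega)]; omega
  · rw [bi _ q2'.le q3']; omega
  · rw [bi _ (by omega) (by omega)]; omega
  all_goals omega

/-- a corner is between its vertex and its face; its labels are around its vertex -/
lemma vx_fi (s : ℤ × ℤ) : ((vx s).1 ≤ (fi s).1 ∧ (fi s).1 ≤ (vx s).1 + 1) ∧
    ((vx s).2 ≤ (fi s).2 ∧ (fi s).2 ≤ (vx s).2 + 1) ∧ ((lab s).1 + (lab s).2) % 2 = 1 ∧
    ((plab s).1 + (plab s).2) % 2 = 1 ∧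
    ((vx s).1 + (vx s).2 - 1 ≤ tX (lab s) ∧ tX (lab s) ≤ (vx s).1 + (vx s).2) ∧
    ((vx s).2 - (vx s).1 - 1 ≤ tY (lab s) ∧ tY (lab s) ≤ (vx s).2 - (vx s).1) ∧
    ((vx s).1 + (vx s).2 - 1 ≤ tX (plab s) ∧ tX (plab s) ≤ (vx s).1 + (vx s).2) ∧
    ((vx s).2 - (vx s).1 - 1 ≤ tY (plab s) ∧ tY (plab s) ≤ (vx s).2 - (vx s).1) := by
  obtain ⟨m, n, h⟩ := corner_cases s
  rcases h with ⟨-, h2, h3, h4, h5⟩ | ⟨-, h2, h3, h4, h5⟩ | ⟨-, h2, h3, h4, h5⟩ | ⟨-, h2, h3, h4, h5⟩ <;>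
    (rw [h2, h3, h4, h5]; unfold tX tY; simp only; omega)

/-- **The corners near `c` are enclosed.** -/
theorem Feet.near {j i : ℤ} {p p' q q' : ℤ × ℤ} (H : Feet C c R τ u j i p p' q q')
    {D K : Set (ℤ × ℤ)} {Su Sl : ℤ × ℤ → ZMod 2}
    (hF : ∀ f : ℤ × ℤ, |f.1 - c.1| ≤ 9 * u → |f.2 - c.2| ≤ 9 * u →
      Fc (tpC C c R) (btC C c R) (C.X0 + 2 * C.N * j) (C.X0 + 2 * C.N * (i + 1)) Su Sl f = 1)
    {s : ℤ × ℤ} (h1 : |(fi s).1 - c.1| ≤ 9 * u) (h2 : |(fi s).2 - c.2| ≤ 9 * u) :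
    s ∈ encl D K (tpC C c R) (btC C c R) (C.X0 + 2 * C.N * j) (C.X0 + 2 * C.N * (i + 1)) Su Sl
      p p' q q' := by
  have hC := H.ok
  have hN := hC.hN
  have hτ := hC.hτ
  have hτN := hC.hτN
  have hu := H.hu
  have hR := H.hR
  have hR0 : 0 < R := by omega
  obtain ⟨w1, w2⟩ := H.hj
  obtain ⟨e1, e2⟩ := H.hi
  obtain ⟨p1, p2, p3⟩ := H.p1
  obtain ⟨p1', p2', p3'⟩ := H.p2
  obtain ⟨q1, q2, q3⟩ := H.q1
  obtain ⟨q1', q2', q3'⟩ := H.q2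
  have rr := tpC_range hC hR0
  have rs := btC_range hC hR0
  have tj : tpC C c R (p.1 + p.2 - 1) = C.TU j :=
    tpC_plate hC (by omega) (by omega) (by omega) (by omega)
  have ti : tpC C c R (p'.1 + p'.2 - 1) = C.TU i :=
    tpC_plate hC (by omega) (by omega) (by omega) (by omega)
  have bj : btC C c R (q.1 + q.2 - 1) = -C.TL j :=
    btC_plate hC (by omega) (by omega) (by omega) (by omega)
  have bi : btC C c R (q'.1 + q'.2 - 1) = -C.TL i :=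
    btC_plate hC (by omega) (by omega) (by omega) (by omega)
  have r1 := rr (p.1 + p.2 - 1)
  have r2 := rr (p'.1 + p'.2 - 1)
  have r3 := rs (q.1 + q.2 - 1)
  have r4 := rs (q'.1 + q'.2 - 1)
  unfold encl
  rw [Set.mem_ofPred_eq]
  unfold Pool.Agent.H1.W.val
  split_ifs with h
  · obtain ⟨v1, v2, -⟩ := vx_fi s
    rw [abs_le] at h1 h2
    unfold Vc
    split_ifs with g1 g2
    · exact ind_true (by omega)
    · exact ind_true (by omega)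
    · exact ind_true (by omega)
  · exact hF _ h1 h2

/-- **The corners far from `c` are not enclosed.** -/
theorem Feet.far {j i : ℤ} {p p' q q' : ℤ × ℤ} (H : Feet C c R τ u j i p p' q q')
    {D K : Set (ℤ × ℤ)} {Su Sl : ℤ × ℤ → ZMod 2} {Yl Yh : ℤ}
    (G : Geo D (tpC C c R) (btC C c R) Yl Yh (C.X0 + 2 * C.N * j) (C.X0 + 2 * C.N * (j + 1))
      (C.X0 + 2 * C.N * i) (C.X0 + 2 * C.N * (i + 1)) p p' q q')
    (hK : ∀ e ∈ K, (e.1 + e.2) % 2 = 1 → (C.X0 + 2 * C.N * j ≤ tX e ∧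
      tX e < C.X0 + 2 * C.N * (i + 1)) ∧ btC C c R (tX e) ≤ tY e ∧ tY e < tpC C c R (tX e))
    (hF : ∀ f : ℤ × ℤ, (22 * u < |f.1 - c.1| ∨ 22 * u < |f.2 - c.2|) →
      Fc (tpC C c R) (btC C c R) (C.X0 + 2 * C.N * j) (C.X0 + 2 * C.N * (i + 1)) Su Sl f = 0)
    {s : ℤ × ℤ} (h1 : 22 * u < |(fi s).1 - c.1| ∨ 22 * u < |(fi s).2 - c.2|) :
    s ∉ encl D K (tpC C c R) (btC C c R) (C.X0 + 2 * C.N * j) (C.X0 + 2 * C.N * (i + 1)) Su Sl
      p p' q q' := by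
  have hC := H.ok
  have hN := hC.hN
  have hτ := hC.hτ
  have hτN := hC.hτN
  have hu := H.hu
  have hR := H.hR
  have hR0 : 0 < R := by omega
  obtain ⟨w1, w2⟩ := H.hj
  obtain ⟨e1, e2⟩ := H.hi
  have rr := tpC_range hC hR0
  have rs := btC_range hC hR0
  have hlt := lt_abs (a := 22 * u) (b := (fi s).1 - c.1)
  have hlt' := lt_abs (a := 22 * u) (b := (fi s).2 - c.2)
  unfold encl
  rw [Set.mem_ofPred_eq]
  unfold Pool.Agent.H1.W.val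
  split_ifs with h
  · obtain ⟨v1, v2, o1, o2, x1, y1, x2, y2⟩ := vx_fi s
    have near : ¬ ((C.X0 + 2 * C.N * j ≤ (vx s).1 + (vx s).2 ∧
        (vx s).1 + (vx s).2 ≤ C.X0 + 2 * C.N * (i + 1)) ∧
        c.2 - c.1 - τ ≤ (vx s).2 - (vx s).1 ∧ (vx s).2 - (vx s).1 ≤ c.2 - c.1 + τ + 1) := by
      rintro ⟨g1, g2⟩
      rw [hlt, hlt'] at h1
      omega
    have kk : ∀ e : ℤ × ℤ, e ∈ K → (e.1 + e.2) % 2 = 1 →
        ((vx s).1 + (vx s).2 - 1 ≤ tX e ∧ tX e ≤ (vx s).1 + (vx s).2) →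
        ((vx s).2 - (vx s).1 - 1 ≤ tY e ∧ tY e ≤ (vx s).2 - (vx s).1) → False := by
      intro e he ho g1 g2
      obtain ⟨k1, k2, k3⟩ := hK e he ho
      have k4 := rr (tX e)
      have k5 := rs (tX e)
      exact near (by omega)
    have dD : (lab s ∈ D) ∧ (plab s ∈ D) := by
      refine ⟨h.1.resolve_left fun g => kk _ g o1 x1 y1, h.2.resolve_left fun g => kk _ g o2 x2 y2⟩
    have d1 := G.Drow _ dD.1 o1
    have m1 := G.lo ((vx s).1 + (vx s).2)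
    have m2 := G.hi ((vx s).1 + (vx s).2)
    have k4 := rr ((vx s).1 + (vx s).2)
    have k5 := rs ((vx s).1 + (vx s).2)
    unfold Vc
    rw [if_neg (by omega), if_neg (by omega), ind_false (by omega)]
    decide
  · rw [hF _ h1]
    decide

/-- the strand graph in a window -/
lemma sg_loc {Λ D Q : Set (ℤ × ℤ)} {w : Finset (ℤ × ℤ)} {s t : ℤ × ℤ} (h : (SG Λ D w).Adj s t)
    (h1 : lab s ∈ Q ∧ plab s ∈ Q) : (SG (Λ ∩ Q) (D ∩ Q) w).Adj s t := by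
  obtain ⟨e, he, ht⟩ := h
  have hQ : e ∈ Q := by
    rcases ht.label with g | g
    · rw [g]; exact h1.1
    · rw [g]; exact h1.2
  refine ⟨e, ⟨he, hQ⟩, ?_⟩
  rcases ht with ⟨g1, g2⟩ | ⟨g1, g2⟩
  · exact Or.inl ⟨⟨g1, hQ⟩, g2⟩
  · exact Or.inr ⟨fun g => g1 g.1, g2⟩

/-- the window of the labels -/
def Qw (c : ℤ × ℤ) (u : ℤ) : Set (ℤ × ℤ) := {e | |e.1 - 2 * c.1| ≤ 46 * u ∧ |e.2 - 2 * c.2| ≤ 46 * u}

lemma mem_Qw {e : ℤ × ℤ} : e ∈ Qw c u ↔ (2 * c.1 - 46 * u ≤ e.1 ∧ e.1 ≤ 2 * c.1 + 46 * u) ∧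
    2 * c.2 - 46 * u ≤ e.2 ∧ e.2 ≤ 2 * c.2 + 46 * u := by
  unfold Qw
  rw [Set.mem_ofPred_eq, abs_le, abs_le]
  omega

/-- labels and face of a corner -/
lemma lab_fi (s : ℤ × ℤ) : (2 * (fi s).1 - 2 ≤ (lab s).1 ∧ (lab s).1 ≤ 2 * (fi s).1 + 1) ∧
    (2 * (fi s).2 - 2 ≤ (lab s).2 ∧ (lab s).2 ≤ 2 * (fi s).2 + 1) ∧
    (2 * (fi s).1 - 2 ≤ (plab s).1 ∧ (plab s).1 ≤ 2 * (fi s).1 + 1) ∧
    (2 * (fi s).2 - 2 ≤ (plab s).2 ∧ (plab s).2 ≤ 2 * (fi s).2 + 1) := by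
  obtain ⟨m, n, h⟩ := corner_cases s
  rcases h with ⟨-, h2, h3, h4, h5⟩ | ⟨-, h2, h3, h4, h5⟩ | ⟨-, h2, h3, h4, h5⟩ | ⟨-, h2, h3, h4, h5⟩ <;>
    (rw [h2, h3, h5]; simp only; omega)

/-- **One exit of a blocking event, all hypotheses in the window.** -/
theorem Feet.block {j i : ℤ} {p p' q q' : ℤ × ℤ} (H : Feet C c R τ u j i p p' q q')
    {Λ D K : Set (ℤ × ℤ)} {w ω : Finset (ℤ × ℤ)} {Yl Yh : ℤ}
    (hΛ : ∀ e ∈ Λ, (e.1 + e.2) % 2 = 1)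
    (hU : ∀ e ∈ ω, e ∈ C.rU c u → e ∈ w) (hL : ∀ e ∈ ω, e ∈ C.rL c u → e ∈ w)
    (h1 : Co (ω ∩ C.rU c u) p p') (h2 : Co (ω ∩ C.rL c u) q q') (hY : Yl ≤ Yh)
    (lo : ∀ m, C.Win c R m → -C.TL m < Yl) (hi : ∀ m, C.Win c R m → Yh < C.TU m)
    (Drow : ∀ e ∈ D, e ∈ Qw c u → (e.1 + e.2) % 2 = 1 → Yl ≤ tY e ∧ tY e < Yh)
    (hK : ∀ e ∈ K, (e.1 + e.2) % 2 = 1 ∧ (C.X0 + 2 * C.N * j ≤ tX e ∧
      tX e < C.X0 + 2 * C.N * (i + 1)) ∧ btC C c R (tX e) ≤ tY e ∧ tY e < tpC C c R (tX e))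
    (hH : Pool.Agent.H1.W.Half (D ∩ Qw c u) K (tpC C c R) (btC C c R) Yl Yh (C.X0 + 2 * C.N * j)
      (C.X0 + 2 * C.N * (j + 1)) (C.X0 + 2 * C.N * i) (C.X0 + 2 * C.N * (i + 1)))
    (hP : Pl (Λ ∩ Qw c u) (D ∩ Qw c u) K w (tpC C c R) (btC C c R) (C.X0 + 2 * C.N * j)
      (C.X0 + 2 * C.N * (j + 1)) (C.X0 + 2 * C.N * i) (C.X0 + 2 * C.N * (i + 1))) :
    ∃ (I : Set (ℤ × ℤ)) (b : ℤ × ℤ), (∀ s t, s ∈ I → t ∉ I → (SG Λ D w).Adj s t → t = b) ∧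
      (∀ s, |(fi s).1 - c.1| ≤ 9 * u → |(fi s).2 - c.2| ≤ 9 * u → s ∈ I) ∧
      (∀ s, (22 * u < |(fi s).1 - c.1| ∨ 22 * u < |(fi s).2 - c.2|) → s ∉ I) := by
  have hu : 0 < u := by have := H.hu; have := H.ok.hN; omega
  obtain ⟨Su, Sl, hR, hF1, hF0⟩ := H.setup (Λ := Λ ∩ Qw c u) (fun e he => hΛ e he.1) hU hL h1 h2
  have hG := H.geo (D := D ∩ Qw c u) hY lo hi (fun e he ho => Drow e he.1 he.2 ho)
  obtain ⟨b, hb⟩ := block_chord hR hG hH (fun e he => (hK e he).1) hP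
  refine ⟨_, b, fun s t hs ht hst => hb s t hs ht (sg_loc hst ?_), fun s g1 g2 => H.near hF1 g1 g2,
    fun s g => H.far hG (fun e he _ => (hK e he).2) hF0 g⟩
  by_contra hcon
  refine H.far hG (fun e he _ => (hK e he).2) hF0 ?_ hs
  obtain ⟨l1, l2, l3, l4⟩ := lab_fi s
  rw [mem_Qw, mem_Qw] at hcon
  rw [lt_abs, lt_abs]
  omega

lemma tXY_tD (e : ℤ × ℤ) : tX (tD e) = tX e ∧ tY (tD e) = tY e - 1 := by
  unfold tX tY tD; simp only; omega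
lemma tXY_tU (e : ℤ × ℤ) : tX (tU e) = tX e ∧ tY (tU e) = tY e + 1 := by
  unfold tX tY tU; simp only; omega

/-- the profiles on the plates of a block -/
lemma Feet.prof {j i : ℤ} {p p' q q' : ℤ × ℤ} (H : Feet C c R τ u j i p p' q q') {x : ℤ} :
    (C.X0 + 2 * C.N * j ≤ x → x < C.X0 + 2 * C.N * (j + 1) →
      tpC C c R x = C.TU j ∧ btC C c R x = -C.TL j) ∧
    (C.X0 + 2 * C.N * i ≤ x → x < C.X0 + 2 * C.N * (i + 1) →
      tpC C c R x = C.TU i ∧ btC C c R x = -C.TL i) := by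
  have hC := H.ok
  have hN := hC.hN
  have hu := H.hu
  have hR := H.hR
  obtain ⟨w1, w2⟩ := H.hj
  obtain ⟨e1, e2⟩ := H.hi
  have ej : C.X0 + 2 * C.N * (j + 1) = C.X0 + 2 * C.N * j + 2 * C.N := by ring
  have ei : C.X0 + 2 * C.N * (i + 1) = C.X0 + 2 * C.N * i + 2 * C.N := by ring
  exact ⟨fun h1 h2 => ⟨tpC_plate hC h1 h2 (by omega) (by omega),
    btC_plate hC h1 h2 (by omega) (by omega)⟩, fun h1 h2 => ⟨tpC_plate hC h1 h2 (by omega) (by omega),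
    btC_plate hC h1 h2 (by omega) (by omega)⟩⟩

/-- the tiles of the chord near the block are in the window -/
lemma Feet.inQ {j i : ℤ} {p p' q q' : ℤ × ℤ} (H : Feet C c R τ u j i p p' q q') {e : ℤ × ℤ}
    (ho : (e.1 + e.2) % 2 = 1) (h1 : C.X0 + 2 * C.N * j ≤ tX e)
    (h2 : tX e < C.X0 + 2 * C.N * (i + 1)) (h3 : c.2 - c.1 - τ ≤ tY e)
    (h4 : tY e ≤ c.2 - c.1 + τ) : e ∈ Qw c u := by
  have hC := H.ok
  have hN := hC.hN
  have hτ := hC.hτ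
  have hτN := hC.hτN
  have hu := H.hu
  obtain ⟨w1, w2⟩ := H.hj
  obtain ⟨e1, e2⟩ := H.hi
  rw [mem_Qw]
  unfold tX at h1 h2
  unfold tY at h3 h4
  omega

/-- numbers of a block -/
lemma Feet.num {j i : ℤ} {p p' q q' : ℤ × ℤ} (H : Feet C c R τ u j i p p' q q') :
    C.Win c R j ∧ C.Win c R i ∧ (c.2 - c.1 - τ ≤ -C.TL j ∧ C.TU j ≤ c.2 - c.1 + τ) ∧
    (c.2 - c.1 - τ ≤ -C.TL i ∧ C.TU i ≤ c.2 - c.1 + τ) ∧
    C.X0 + 2 * C.N * j < C.X0 + 2 * C.N * (j + 1) ∧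
    C.X0 + 2 * C.N * (j + 1) < C.X0 + 2 * C.N * i ∧
    C.X0 + 2 * C.N * i < C.X0 + 2 * C.N * (i + 1) := by
  have hC := H.ok
  have hN := hC.hN
  have hτ := hC.hτ
  have hu := H.hu
  have hR := H.hR
  have g1 := isW_win (C := C) (by omega) (by omega) (by omega) H.hj
  have g2 := isE_win (C := C) (by omega) (by omega) (by omega) H.hi
  have e1 := hC.U.hi _ g1
  have e2 := hC.L.hi _ g1
  have e3 := hC.U.hi _ g2
  have e4 := hC.L.hi _ g2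
  obtain ⟨w1, w2⟩ := H.hj
  obtain ⟨w3, w4⟩ := H.hi
  have ej : C.X0 + 2 * C.N * (j + 1) = C.X0 + 2 * C.N * j + 2 * C.N := by ring
  have ei : C.X0 + 2 * C.N * (i + 1) = C.X0 + 2 * C.N * i + 2 * C.N := by ring
  refine ⟨g1, g2, ⟨by omega, by omega⟩, ⟨by omega, by omega⟩, by omega, by omega, by omega⟩

end Pool.Agent.H99.W
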