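import Mathlib
import Pool.Agent.H99.W.Encl

set_option autoImplicit false
open Finset

/-! # One exit of a blocking event: the two kinds of worlds (module D7c, final form)

`Rows D w x0 x1 y0 y1 d o` : in the columns `[x0,x1)` and the rows `[y0,y1)` the deleted rows are `d`, the
open rows `o`. `blockX` : left plate open, right plate with one deleted row and one closed half.
`blockY` : left plate with one deleted row and one closed half, right plate with two deleted rows, closed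
between them and open outside. `Ch.Blk` versions : `blkX`, `blkY`. -/

namespace Pool.Agent.H99.W

open Pool.Agent.H75.Perc Pool.Agent.H75.TwoArm Pool.Agent.H60.Q1 Pool.Agent.H13.W Pool.Agent.H1.W
open Pool.Agent.H55.W

variable {C : Ch} {c : ℤ × ℤ} {R τ u : ℤ}

/-- the rows of a plate -/
def Rows (D : Set (ℤ × ℤ)) (w : Finset (ℤ × ℤ)) (x0 x1 y0 y1 : ℤ) (d o : ℤ → Prop) : Prop :=
  ∀ e : ℤ × ℤ, (e.1 + e.2) % 2 = 1 → x0 ≤ tX e → tX e < x1 → y0 ≤ tY e → tY e < y1 →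
    (e ∈ D ↔ d (tY e)) ∧ (¬ d (tY e) → (e ∈ w ↔ o (tY e)))

/-- the conclusion: a set with one exit, which contains the corners near `c` and no corner far from `c` -/
def OneExit (Λ D : Set (ℤ × ℤ)) (w : Finset (ℤ × ℤ)) (c : ℤ × ℤ) (u : ℤ) : Prop :=
  ∃ (I : Set (ℤ × ℤ)) (b : ℤ × ℤ), (∀ s t, s ∈ I → t ∉ I → (SG Λ D w).Adj s t → t = b) ∧
      (∀ s, |(fi s).1 - c.1| ≤ 9 * u → |(fi s).2 - c.2| ≤ 9 * u → s ∈ I) ∧
      (∀ s, (22 * u < |(fi s).1 - c.1| ∨ 22 * u < |(fi s).2 - c.2|) → s ∉ I)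

/-- **One exit, worlds of type X.** -/
theorem Feet.blockX {j i : ℤ} {p p' q q' : ℤ × ℤ} (H : Feet C c R τ u j i p p' q q')
    {Λ D : Set (ℤ × ℤ)} {w ω : Finset (ℤ × ℤ)} {Yl Yh Yd : ℤ} {P : Prop}
    (hΛ : ∀ e ∈ Λ, (e.1 + e.2) % 2 = 1)
    (hU : ∀ e ∈ ω, e ∈ C.rU c u → e ∈ w) (hL : ∀ e ∈ ω, e ∈ C.rL c u → e ∈ w)
    (h1 : Co (ω ∩ C.rU c u) p p') (h2 : Co (ω ∩ C.rL c u) q q')
    (lo : ∀ m, C.Win c R m → -C.TL m < Yl) (hi : ∀ m, C.Win c R m → Yh < C.TU m)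
    (Drow : ∀ e ∈ D, e ∈ Qw c u → (e.1 + e.2) % 2 = 1 → Yl ≤ tY e ∧ tY e < Yh)
    (hd : Yl ≤ Yd ∧ Yd < Yh)
    (Rj : Rows D w (C.X0 + 2 * C.N * j) (C.X0 + 2 * C.N * (j + 1)) (-C.TL j) (C.TU j)
      (fun _ => False) (fun _ => True))
    (Ri : Rows D w (C.X0 + 2 * C.N * i) (C.X0 + 2 * C.N * (i + 1)) (-C.TL i) (C.TU i)
      (fun y => y = Yd) (fun y => y < Yd ↔ P)) :
    OneExit Λ D w c u := by
  obtain ⟨Wj, Wi, ⟨n1, n2⟩, ⟨n3, n4⟩, n5, n6, n7⟩ := H.num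
  have l1 := lo _ Wj
  have l2 := lo _ Wi
  have l3 := hi _ Wj
  have l4 := hi _ Wi
  have pj : ∀ {x : ℤ}, _ := fun {x} => (H.prof (x := x)).1
  have pi : ∀ {x : ℤ}, _ := fun {x} => (H.prof (x := x)).2
  -- deleted tiles of plate i
  have dI : ∀ e : ℤ × ℤ, (e.1 + e.2) % 2 = 1 → tY e = Yd → C.X0 + 2 * C.N * i ≤ tX e →
      tX e < C.X0 + 2 * C.N * (i + 1) → e ∈ D ∩ Qw c u := by
    intro e ho g1 g2 g3
    exact ⟨(Ri e ho g2 g3 (by omega) (by omega)).1.2 g1,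
      H.inQ ho (by omega) g3 (by omega) (by omega)⟩
  have tdo : ∀ e : ℤ × ℤ, (e.1 + e.2) % 2 = 1 → ((tD e).1 + (tD e).2) % 2 = 1 := by
    intro e ho; unfold tD; simp only; omega
  have tuo : ∀ e : ℤ × ℤ, (e.1 + e.2) % 2 = 1 → ((tU e).1 + (tU e).2) % 2 = 1 := by
    intro e ho; unfold tU; simp only; omega
  -- only plate i contains deleted tiles among the two extreme columns
  have col : ∀ e ∈ D ∩ Qw c u, (e.1 + e.2) % 2 = 1 →
      (tX e = C.X0 + 2 * C.N * j ∨ tX e = C.X0 + 2 * C.N * (i + 1) - 1) →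
      tX e = C.X0 + 2 * C.N * (i + 1) - 1 ∧ tY e = Yd := by
    intro e he ho g
    have r := Drow e he.1 he.2 ho
    rcases g with g | g
    · exact absurd he.1 fun hh => (Rj e ho (by omega) (by omega) (by omega) (by omega)).1.1 hh
    · exact ⟨g, (Ri e ho (by omega) (by omega) (by omega) (by omega)).1.1 he.1⟩
  by_cases hP : P
  · refine H.block (K := KU (tpC C c R) (Yd + 1) (C.X0 + 2 * C.N * i) (C.X0 + 2 * C.N * (i + 1)))
      hΛ hU hL h1 h2 (by omega) lo hi Drow ?_ ?_ ?_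
    · rintro e ⟨ho, g1, g2, g3, g4⟩
      obtain ⟨t1, t2⟩ := pi g1 g2
      exact ⟨ho, ⟨by omega, g2⟩, by omega, g4⟩
    · exact Or.inl ⟨Yd + 1, ⟨by omega, by omega, fun e ho g1 g2 g3 => dI e ho (by omega) g2 g3⟩,
        Ks.refl⟩
    · refine ⟨?_, ?_, ?_⟩
      · rintro e ⟨ho, g1, g2, g3, g4⟩ hw
        obtain ⟨t1, t2⟩ := pi g1 g2
        have := ((Ri e ho g1 g2 (by omega) (by omega)).2 (by omega)).1 hw
        have := this.2 hP
        omega
      · intro e he g1 g2 g3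
        have ho := hΛ e he.1
        rcases g3 with ⟨g3, g4⟩ | ⟨g3, g4⟩
        · obtain ⟨t1, t2⟩ := pj g3 g4
          exact Or.inl (((Rj e ho g3 g4 (by omega) (by omega)).2 (by simp)).2 trivial)
        · obtain ⟨t1, t2⟩ := pi g3 g4
          have r := Ri e ho g3 g4 (by omega) (by omega)
          rcases lt_trichotomy (tY e) Yd with g | g | g
          · exact Or.inl ((r.2 (by omega)).2 ⟨fun _ => hP, fun _ => g⟩)
          · exact Or.inr (Or.inl (dI e ho g g3 g4))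
          · exact Or.inr (Or.inr ⟨ho, g3, g4, by omega, g2⟩)
      · intro e he ho g
        obtain ⟨g1, g2⟩ := col e he ho g
        obtain ⟨x1, y1⟩ := tXY_tD e
        obtain ⟨x2, y2⟩ := tXY_tU e
        have k1 : tU e ∈ KU (tpC C c R) (Yd + 1) (C.X0 + 2 * C.N * i) (C.X0 + 2 * C.N * (i + 1)) := by
          refine ⟨tuo e ho, by omega, by omega, by omega, ?_⟩
          rw [(pi (x := tX (tU e)) (by omega) (by omega)).1]; omega
        have k2 : ¬ (tD e ∈ KU (tpC C c R) (Yd + 1) (C.X0 + 2 * C.N * i)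
            (C.X0 + 2 * C.N * (i + 1)) ∨ tD e ∈ D ∩ Qw c u) := by
          rintro (⟨-, -, -, g5, -⟩ | g5)
          · omega
          · have := (Ri _ (tdo e ho) (by omega) (by omega) (by omega) (by omega)).1.1 g5.1
            omega
        exact ⟨fun h => absurd h k2, fun h => absurd (Or.inl k1) h⟩
  · refine H.block (K := KL (btC C c R) Yd (C.X0 + 2 * C.N * i) (C.X0 + 2 * C.N * (i + 1)))
      hΛ hU hL h1 h2 (by omega) lo hi Drow ?_ ?_ ?_
    · rintro e ⟨ho, g1, g2, g3, g4⟩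
      obtain ⟨t1, t2⟩ := pi g1 g2
      exact ⟨ho, ⟨by omega, g2⟩, g3, by omega⟩
    · exact Or.inr (Or.inl ⟨Yd, ⟨by omega, by omega, fun e ho g1 g2 g3 => dI e ho (by omega) g2 g3⟩,
        Ks.refl⟩)
    · refine ⟨?_, ?_, ?_⟩
      · rintro e ⟨ho, g1, g2, g3, g4⟩ hw
        obtain ⟨t1, t2⟩ := pi g1 g2
        have := ((Ri e ho g1 g2 (by omega) (by omega)).2 (by omega)).1 hw
        exact hP (this.1 g4)
      · intro e he g1 g2 g3
        have ho := hΛ e he.1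
        rcases g3 with ⟨g3, g4⟩ | ⟨g3, g4⟩
        · obtain ⟨t1, t2⟩ := pj g3 g4
          exact Or.inl (((Rj e ho g3 g4 (by omega) (by omega)).2 (by simp)).2 trivial)
        · obtain ⟨t1, t2⟩ := pi g3 g4
          have r := Ri e ho g3 g4 (by omega) (by omega)
          rcases lt_trichotomy (tY e) Yd with g | g | g
          · exact Or.inr (Or.inr ⟨ho, g3, g4, g1, g⟩)
          · exact Or.inr (Or.inl (dI e ho g g3 g4))
          · exact Or.inl ((r.2 (by omega)).2 ⟨fun h => absurd h (by omega), fun h => absurd h hP⟩)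
      · intro e he ho g
        obtain ⟨g1, g2⟩ := col e he ho g
        obtain ⟨x1, y1⟩ := tXY_tD e
        obtain ⟨x2, y2⟩ := tXY_tU e
        have k1 : tD e ∈ KL (btC C c R) Yd (C.X0 + 2 * C.N * i) (C.X0 + 2 * C.N * (i + 1)) := by
          refine ⟨tdo e ho, by omega, by omega, ?_, by omega⟩
          rw [(pi (x := tX (tD e)) (by omega) (by omega)).2]; omega
        have k2 : ¬ (tU e ∈ KL (btC C c R) Yd (C.X0 + 2 * C.N * i)
            (C.X0 + 2 * C.N * (i + 1)) ∨ tU e ∈ D ∩ Qw c u) := by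
          rintro (⟨-, -, -, -, g5⟩ | g5)
          · omega
          · have := (Ri _ (tuo e ho) (by omega) (by omega) (by omega) (by omega)).1.1 g5.1
            omega
        exact ⟨fun _ => k2, fun _ => Or.inl k1⟩

/-- **One exit, worlds of type Y.** -/
theorem Feet.blockY {j i : ℤ} {p p' q q' : ℤ × ℤ} (H : Feet C c R τ u j i p p' q q')
    {Λ D : Set (ℤ × ℤ)} {w ω : Finset (ℤ × ℤ)} {Yl Yh yj y1 y2 : ℤ} {P : Prop}
    (hΛ : ∀ e ∈ Λ, (e.1 + e.2) % 2 = 1)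
    (hU : ∀ e ∈ ω, e ∈ C.rU c u → e ∈ w) (hL : ∀ e ∈ ω, e ∈ C.rL c u → e ∈ w)
    (h1 : Co (ω ∩ C.rU c u) p p') (h2 : Co (ω ∩ C.rL c u) q q')
    (lo : ∀ m, C.Win c R m → -C.TL m < Yl) (hi : ∀ m, C.Win c R m → Yh < C.TU m)
    (Drow : ∀ e ∈ D, e ∈ Qw c u → (e.1 + e.2) % 2 = 1 → Yl ≤ tY e ∧ tY e < Yh)
    (hd : Yl ≤ yj ∧ yj < Yh) (hd1 : Yl ≤ y1) (hd12 : y1 < y2) (hd2 : y2 < Yh)
    (Rj : Rows D w (C.X0 + 2 * C.N * j) (C.X0 + 2 * C.N * (j + 1)) (-C.TL j) (C.TU j)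
      (fun y => y = yj) (fun y => y < yj ↔ P))
    (Ri : Rows D w (C.X0 + 2 * C.N * i) (C.X0 + 2 * C.N * (i + 1)) (-C.TL i) (C.TU i)
      (fun y => y = y1 ∨ y = y2) (fun y => y < y1 ∨ y2 < y)) :
    OneExit Λ D w c u := by
  obtain ⟨Wj, Wi, ⟨n1, n2⟩, ⟨n3, n4⟩, n5, n6, n7⟩ := H.num
  have l1 := lo _ Wj
  have l2 := lo _ Wi
  have l3 := hi _ Wj
  have l4 := hi _ Wi
  have pj : ∀ {x : ℤ}, _ := fun {x} => (H.prof (x := x)).1
  have pi : ∀ {x : ℤ}, _ := fun {x} => (H.prof (x := x)).2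
  have dJ : ∀ e : ℤ × ℤ, (e.1 + e.2) % 2 = 1 → tY e = yj → C.X0 + 2 * C.N * j ≤ tX e →
      tX e < C.X0 + 2 * C.N * (j + 1) → e ∈ D ∩ Qw c u := by
    intro e ho g1 g2 g3
    exact ⟨(Rj e ho g2 g3 (by omega) (by omega)).1.2 g1,
      H.inQ ho g2 (by omega) (by omega) (by omega)⟩
  have dI : ∀ e : ℤ × ℤ, (e.1 + e.2) % 2 = 1 → (tY e = y1 ∨ tY e = y2) →
      C.X0 + 2 * C.N * i ≤ tX e → tX e < C.X0 + 2 * C.N * (i + 1) → e ∈ D ∩ Qw c u := by
    intro e ho g1 g2 g3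
    exact ⟨(Ri e ho g2 g3 (by omega) (by omega)).1.2 g1,
      H.inQ ho (by omega) g3 (by omega) (by omega)⟩
  have tdo : ∀ e : ℤ × ℤ, (e.1 + e.2) % 2 = 1 → ((tD e).1 + (tD e).2) % 2 = 1 := by
    intro e ho; unfold tD; simp only; omega
  have tuo : ∀ e : ℤ × ℤ, (e.1 + e.2) % 2 = 1 → ((tU e).1 + (tU e).2) % 2 = 1 := by
    intro e ho; unfold tU; simp only; omega
  set SB : Set (ℤ × ℤ) := {e | (e.1 + e.2) % 2 = 1 ∧ C.X0 + 2 * C.N * i ≤ tX e ∧
    tX e < C.X0 + 2 * C.N * (i + 1) ∧ y1 < tY e ∧ tY e < y2} with hSB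
  -- the slab
  have slab : ∀ e ∈ SB, ∀ K0 : Set (ℤ × ℤ), Yl ≤ tY e ∧ tY e < Yh ∧
      (tD e ∈ K0 ∪ SB ∨ tD e ∈ D ∩ Qw c u) ∧ (tU e ∈ K0 ∪ SB ∨ tU e ∈ D ∩ Qw c u) := by
    rintro e ⟨ho, g1, g2, g3, g4⟩ K0
    obtain ⟨x1, y1'⟩ := tXY_tD e
    obtain ⟨x2, y2'⟩ := tXY_tU e
    refine ⟨by omega, by omega, ?_, ?_⟩
    · by_cases g : tY e - 1 = y1
      · exact Or.inr (dI _ (tdo e ho) (by omega) (by omega) (by omega))
      · exact Or.inl (Or.inr ⟨tdo e ho, by omega, by omega, by omega, by omega⟩)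
    · by_cases g : tY e + 1 = y2
      · exact Or.inr (dI _ (tuo e ho) (by omega) (by omega) (by omega))
      · exact Or.inl (Or.inr ⟨tuo e ho, by omega, by omega, by omega, by omega⟩)
  -- the rows of plate i
  have plI : ∀ e ∈ Λ, -C.TL i ≤ tY e → tY e < C.TU i → C.X0 + 2 * C.N * i ≤ tX e →
      tX e < C.X0 + 2 * C.N * (i + 1) → e ∈ w ∨ e ∈ D ∩ Qw c u ∨ e ∈ SB := by
    intro e he g1 g2 g3 g4
    have ho := hΛ e he
    have r := Ri e ho g3 g4 g1 g2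
    by_cases g5 : tY e = y1 ∨ tY e = y2
    · exact Or.inr (Or.inl (dI e ho g5 g3 g4))
    · by_cases g6 : tY e < y1 ∨ y2 < tY e
      · exact Or.inl ((r.2 g5).2 g6)
      · exact Or.inr (Or.inr ⟨ho, g3, g4, by omega, by omega⟩)
  have wI : ∀ e ∈ SB, e ∉ w := by
    rintro e ⟨ho, g1, g2, g3, g4⟩ hw
    have := ((Ri e ho g1 g2 (by omega) (by omega)).2 (by omega)).1 hw
    omega
  -- the extreme column of plate i
  have exI : ∀ e ∈ D ∩ Qw c u, (e.1 + e.2) % 2 = 1 → tX e = C.X0 + 2 * C.N * (i + 1) - 1 →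
      ∀ K0 : Set (ℤ × ℤ), (∀ e ∈ K0, (e.1 + e.2) % 2 = 1 → tX e < C.X0 + 2 * C.N * (j + 1)) →
      ((tD e ∈ K0 ∪ SB ∨ tD e ∈ D ∩ Qw c u) ↔ ¬ (tU e ∈ K0 ∪ SB ∨ tU e ∈ D ∩ Qw c u)) := by
    intro e he ho g K0 hK0
    have r := Drow e he.1 he.2 ho
    have r1 := (Ri e ho (by omega) (by omega) (by omega) (by omega)).1.1 he.1
    obtain ⟨x1, y1'⟩ := tXY_tD e
    obtain ⟨x2, y2'⟩ := tXY_tU e
    rcases r1 with r1 | r1
    · have k1 : tU e ∈ K0 ∪ SB ∨ tU e ∈ D ∩ Qw c u := by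
        by_cases g : y1 + 1 = y2
        · exact Or.inr (dI _ (tuo e ho) (by omega) (by omega) (by omega))
        · exact Or.inl (Or.inr ⟨tuo e ho, by omega, by omega, by omega, by omega⟩)
      have k2 : ¬ (tD e ∈ K0 ∪ SB ∨ tD e ∈ D ∩ Qw c u) := by
        rintro ((g5 | ⟨-, -, -, g5, -⟩) | g5)
        · have := hK0 _ g5 (tdo e ho); omega
        · omega
        · have := (Ri _ (tdo e ho) (by omega) (by omega) (by omega) (by omega)).1.1 g5.1
          omega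
      exact ⟨fun h => absurd h k2, fun h => absurd k1 h⟩
    · have k1 : tD e ∈ K0 ∪ SB ∨ tD e ∈ D ∩ Qw c u := by
        by_cases g : y1 + 1 = y2
        · exact Or.inr (dI _ (tdo e ho) (by omega) (by omega) (by omega))
        · exact Or.inl (Or.inr ⟨tdo e ho, by omega, by omega, by omega, by omega⟩)
      have k2 : ¬ (tU e ∈ K0 ∪ SB ∨ tU e ∈ D ∩ Qw c u) := by
        rintro ((g5 | ⟨-, -, -, -, g5⟩) | g5)
        · have := hK0 _ g5 (tuo e ho); omega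
        · omega
        · have := (Ri _ (tuo e ho) (by omega) (by omega) (by omega) (by omega)).1.1 g5.1
          omega
      exact ⟨fun _ => k2, fun _ => k1⟩
  have kS : ∀ e ∈ SB, (e.1 + e.2) % 2 = 1 ∧ (C.X0 + 2 * C.N * j ≤ tX e ∧
      tX e < C.X0 + 2 * C.N * (i + 1)) ∧ btC C c R (tX e) ≤ tY e ∧ tY e < tpC C c R (tX e) := by
    rintro e ⟨ho, g1, g2, g3, g4⟩
    obtain ⟨t1, t2⟩ := pi g1 g2
    exact ⟨ho, ⟨by omega, g2⟩, by omega, by omega⟩
  by_cases hP : P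
  · refine H.block (K := KU (tpC C c R) (yj + 1) (C.X0 + 2 * C.N * j) (C.X0 + 2 * C.N * (j + 1)) ∪ SB)
      hΛ hU hL h1 h2 (by omega) lo hi Drow ?_ ?_ ?_
    · rintro e (⟨ho, g1, g2, g3, g4⟩ | g)
      · obtain ⟨t1, t2⟩ := pj g1 g2
        exact ⟨ho, ⟨g1, by omega⟩, by omega, g4⟩
      · exact kS e g
    · refine Or.inr (Or.inr (Or.inl ⟨yj + 1, ⟨by omega, by omega,
        fun e ho g1 g2 g3 => dJ e ho (by omega) g2 g3⟩, ⟨fun e he => Or.inl he, ?_⟩⟩))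
      rintro e (g | g) g'
      · exact absurd g g'
      · exact slab e g _
    · refine ⟨?_, ?_, ?_⟩
      · rintro e (⟨ho, g1, g2, g3, g4⟩ | g) hw
        · obtain ⟨t1, t2⟩ := pj g1 g2
          have := ((Rj e ho g1 g2 (by omega) (by omega)).2 (by omega)).1 hw
          have := this.2 hP
          omega
        · exact wI e g hw
      · intro e he g1 g2 g3
        have ho := hΛ e he.1
        rcases g3 with ⟨g3, g4⟩ | ⟨g3, g4⟩
        · obtain ⟨t1, t2⟩ := pj g3 g4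
          have r := Rj e ho g3 g4 (by omega) (by omega)
          rcases lt_trichotomy (tY e) yj with g | g | g
          · exact Or.inl ((r.2 (by omega)).2 ⟨fun _ => hP, fun _ => g⟩)
          · exact Or.inr (Or.inl (dJ e ho g g3 g4))
          · exact Or.inr (Or.inr (Or.inl ⟨ho, g3, g4, by omega, g2⟩))
        · obtain ⟨t1, t2⟩ := pi g3 g4
          rcases plI e he.1 (by omega) (by omega) g3 g4 with h | h | h
          · exact Or.inl h
          · exact Or.inr (Or.inl h)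
          · exact Or.inr (Or.inr (Or.inr h))
      · intro e he ho g
        rcases g with g | g
        · have r := Drow e he.1 he.2 ho
          have r1 := (Rj e ho (by omega) (by omega) (by omega) (by omega)).1.1 he.1
          obtain ⟨x1, y1'⟩ := tXY_tD e
          obtain ⟨x2, y2'⟩ := tXY_tU e
          have k1 : tU e ∈ KU (tpC C c R) (yj + 1) (C.X0 + 2 * C.N * j)
              (C.X0 + 2 * C.N * (j + 1)) := by
            refine ⟨tuo e ho, by omega, by omega, by omega, ?_⟩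
            rw [(pj (x := tX (tU e)) (by omega) (by omega)).1]; omega
          have k2 : ¬ (tD e ∈ KU (tpC C c R) (yj + 1) (C.X0 + 2 * C.N * j)
              (C.X0 + 2 * C.N * (j + 1)) ∪ SB ∨ tD e ∈ D ∩ Qw c u) := by
            rintro ((⟨-, -, -, g5, -⟩ | ⟨-, g5, -⟩) | g5)
            · omega
            · omega
            · have := (Rj _ (tdo e ho) (by omega) (by omega) (by omega) (by omega)).1.1 g5.1
              omega
          exact ⟨fun h => absurd h k2, fun h => absurd (Or.inl (Or.inl k1)) h⟩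
        · exact exI e he ho g _ (fun e g5 _ => g5.2.2.1)
  · refine H.block (K := KL (btC C c R) yj (C.X0 + 2 * C.N * j) (C.X0 + 2 * C.N * (j + 1)) ∪ SB)
      hΛ hU hL h1 h2 (by omega) lo hi Drow ?_ ?_ ?_
    · rintro e (⟨ho, g1, g2, g3, g4⟩ | g)
      · obtain ⟨t1, t2⟩ := pj g1 g2
        exact ⟨ho, ⟨g1, by omega⟩, g3, by omega⟩
      · exact kS e g
    · refine Or.inr (Or.inr (Or.inr ⟨yj, ⟨by omega, by omega,
        fun e ho g1 g2 g3 => dJ e ho (by omega) g2 g3⟩, ⟨fun e he => Or.inl he, ?_⟩⟩))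
      rintro e (g | g) g'
      · exact absurd g g'
      · exact slab e g _
    · refine ⟨?_, ?_, ?_⟩
      · rintro e (⟨ho, g1, g2, g3, g4⟩ | g) hw
        · obtain ⟨t1, t2⟩ := pj g1 g2
          have := ((Rj e ho g1 g2 (by omega) (by omega)).2 (by omega)).1 hw
          exact hP (this.1 g4)
        · exact wI e g hw
      · intro e he g1 g2 g3
        have ho := hΛ e he.1
        rcases g3 with ⟨g3, g4⟩ | ⟨g3, g4⟩
        · obtain ⟨t1, t2⟩ := pj g3 g4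
          have r := Rj e ho g3 g4 (by omega) (by omega)
          rcases lt_trichotomy (tY e) yj with g | g | g
          · exact Or.inr (Or.inr (Or.inl ⟨ho, g3, g4, g1, g⟩))
          · exact Or.inr (Or.inl (dJ e ho g g3 g4))
          · exact Or.inl ((r.2 (by omega)).2 ⟨fun h => absurd h (by omega), fun h => absurd h hP⟩)
        · obtain ⟨t1, t2⟩ := pi g3 g4
          rcases plI e he.1 (by omega) (by omega) g3 g4 with h | h | h
          · exact Or.inl h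
          · exact Or.inr (Or.inl h)
          · exact Or.inr (Or.inr (Or.inr h))
      · intro e he ho g
        rcases g with g | g
        · have r := Drow e he.1 he.2 ho
          have r1 := (Rj e ho (by omega) (by omega) (by omega) (by omega)).1.1 he.1
          obtain ⟨x1, y1'⟩ := tXY_tD e
          obtain ⟨x2, y2'⟩ := tXY_tU e
          have k1 : tD e ∈ KL (btC C c R) yj (C.X0 + 2 * C.N * j) (C.X0 + 2 * C.N * (j + 1)) := by
            refine ⟨tdo e ho, by omega, by omega, ?_, by omega⟩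
            rw [(pj (x := tX (tD e)) (by omega) (by omega)).2]; omega
          have k2 : ¬ (tU e ∈ KL (btC C c R) yj (C.X0 + 2 * C.N * j)
              (C.X0 + 2 * C.N * (j + 1)) ∪ SB ∨ tU e ∈ D ∩ Qw c u) := by
            rintro ((⟨-, -, -, -, g5⟩ | ⟨-, g5, -⟩) | g5)
            · omega
            · omega
            · have := (Rj _ (tuo e ho) (by omega) (by omega) (by omega) (by omega)).1.1 g5.1
              omega
          exact ⟨fun _ => k2, fun _ => Or.inl (Or.inl k1)⟩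
        · exact exI e he ho g _ (fun e g5 _ => g5.2.2.1)

/-- rooms of the block -/
structure InW (C : Ch) (c : ℤ × ℤ) (u : ℤ) (w ω : Finset (ℤ × ℤ)) : Prop where
  U : ∀ e ∈ ω, e ∈ C.rU c u → e ∈ w
  L : ∀ e ∈ ω, e ∈ C.rL c u → e ∈ w

/-- the deleted rows of the chord -/
structure Del (C : Ch) (c : ℤ × ℤ) (R u : ℤ) (D : Set (ℤ × ℤ)) (Yl Yh : ℤ) : Prop where
  lo : ∀ m, C.Win c R m → -C.TL m < Yl
  hi : ∀ m, C.Win c R m → Yh < C.TU m
  row : ∀ e ∈ D, e ∈ Qw c u → (e.1 + e.2) % 2 = 1 → Yl ≤ tY e ∧ tY e < Yh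

/-- **One exit from 55's blocking event, worlds of type X.** -/
theorem blkX (hC : C.Ok c R τ) (hu : 8 * C.N ≤ u) (hR : 30 * u ≤ R)
    {K : ℤ → ℤ → Finset (ℤ × ℤ) → Prop} {w ω : Finset (ℤ × ℤ)} (hB : C.Blk c u K ω)
    {Λ D : Set (ℤ × ℤ)} (hΛ : ∀ e ∈ Λ, (e.1 + e.2) % 2 = 1) (hW : InW C c u w ω) {Yl Yh Yd : ℤ}
    (hD : Del C c R u D Yl Yh) (hd : Yl ≤ Yd ∧ Yd < Yh)
    (rows : ∀ j i, C.isW c u j → C.isE c u i → K j i ω →
      Rows D w (C.X0 + 2 * C.N * j) (C.X0 + 2 * C.N * (j + 1)) (-C.TL j) (C.TU j)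
        (fun _ => False) (fun _ => True) ∧
      ∃ P : Prop, Rows D w (C.X0 + 2 * C.N * i) (C.X0 + 2 * C.N * (i + 1)) (-C.TL i) (C.TU i)
        (fun y => y = Yd) (fun y => y < Yd ↔ P)) : OneExit Λ D w c u := by
  obtain ⟨j, i, h1, h2, h3, ⟨p, p', h4, h5, h6⟩, q, q', h7, h8, h9⟩ := hB
  obtain ⟨r1, P, r2⟩ := rows j i h1 h2 h3
  exact Feet.blockX (ω := ω) ⟨hC, hu, hR, h1, h2, h4, h5, h7, h8⟩ hΛ hW.U hW.L h6 h9 hD.lo hD.hi
    hD.row hd r1 r2

/-- **One exit from 55's blocking event, worlds of type Y.** -/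
theorem blkY (hC : C.Ok c R τ) (hu : 8 * C.N ≤ u) (hR : 30 * u ≤ R)
    {K : ℤ → ℤ → Finset (ℤ × ℤ) → Prop} {w ω : Finset (ℤ × ℤ)} (hB : C.Blk c u K ω)
    {Λ D : Set (ℤ × ℤ)} (hΛ : ∀ e ∈ Λ, (e.1 + e.2) % 2 = 1) (hW : InW C c u w ω)
    {Yl Yh yj y1 y2 : ℤ} (hD : Del C c R u D Yl Yh) (hd : Yl ≤ yj ∧ yj < Yh) (hd1 : Yl ≤ y1)
    (hd12 : y1 < y2) (hd2 : y2 < Yh)
    (rows : ∀ j i, C.isW c u j → C.isE c u i → K j i ω →
      (∃ P : Prop, Rows D w (C.X0 + 2 * C.N * j) (C.X0 + 2 * C.N * (j + 1)) (-C.TL j) (C.TU j)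
        (fun y => y = yj) (fun y => y < yj ↔ P)) ∧
      Rows D w (C.X0 + 2 * C.N * i) (C.X0 + 2 * C.N * (i + 1)) (-C.TL i) (C.TU i)
        (fun y => y = y1 ∨ y = y2) (fun y => y < y1 ∨ y2 < y)) : OneExit Λ D w c u := by
  obtain ⟨j, i, h1, h2, h3, ⟨p, p', h4, h5, h6⟩, q, q', h7, h8, h9⟩ := hB
  obtain ⟨⟨P, r1⟩, r2⟩ := rows j i h1 h2 h3
  exact Feet.blockY (ω := ω) ⟨hC, hu, hR, h1, h2, h4, h5, h7, h8⟩ hΛ hW.U hW.L h6 h9 hD.lo hD.hi
    hD.row hd hd1 hd12 hd2 r1 r2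

end Pool.Agent.H99.W
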