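import Mathlib
import Pool.Agent.H99.W.Glue

set_option autoImplicit false

/-! # Enclosed corners of the rooms on both sides of a chord: one exit

`R` : room edges, `C` : chord edges (plates), `K` : the bank corners (every vertex with an `R`-edge and a
`C`-edge is in `K`), `J` : enclosed room corners. Chord strands join the bank corners in pairs `a`, `π a`.
If room edges preserve `J` and chord pairs preserve `J` except the pair of `b`, then the set `enc C K J`
has only edges to `b`. -/

namespace Pool.Agent.H99.W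

open SimpleGraph

variable {α : Type*}

/-- the enclosed set: enclosed room corners and the inner chord corners joined to enclosed bank
corners -/
def enc (C : SimpleGraph α) (V K J : Set α) : Set α :=
  {c | (c ∈ V ∧ c ∈ J) ∨ (c ∉ V ∧ ∃ a ∈ K, a ∈ J ∧ C.Reachable a c)}

/-- **Both sides of a chord.** `V` : the room corners (including the banks `K`). -/
theorem two_sides {R C : SimpleGraph α} {V K J : Set α} {b : α}
    (hR : ∀ u v, R.Adj u v → u ∈ V ∧ v ∈ V)
    (hC : ∀ u v, C.Adj u v → u ∈ V → u ∈ K)
    (hJ : ∀ u v, R.Adj u v → u ∈ J → v ∈ J)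
    (hπ : ∀ a ∈ K, ∀ c ∈ K, C.Reachable a c → a ∈ J → c ∉ J → c = b) :
    ∀ u v, u ∈ enc C V K J → v ∉ enc C V K J → (R ⊔ C).Adj u v → v = b := by
  intro u v hu hv huv
  rcases huv with h | h
  · obtain ⟨h1, h2⟩ := hR u v h
    exfalso
    rcases hu with ⟨-, h3⟩ | ⟨h3, -⟩
    · exact hv (Or.inl ⟨h2, hJ u v h h3⟩)
    · exact h3 h1
  · -- a chord edge; `u` is joined to an enclosed bank corner
    obtain ⟨a, haK, haJ, hau⟩ : ∃ a ∈ K, a ∈ J ∧ C.Reachable a u := by
      rcases hu with ⟨h1, h2⟩ | ⟨-, h2⟩
      · exact ⟨u, hC u v h h1, h2, Reachable.refl _⟩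
      · exact h2
    have hav : C.Reachable a v := hau.trans h.reachable
    by_cases hvV : v ∈ V
    · have hvK : v ∈ K := hC v u h.symm hvV
      have hvJ : v ∉ J := fun h1 => hv (Or.inl ⟨hvV, h1⟩)
      exact hπ a haK v hvK hav haJ hvJ
    · exact absurd (Or.inr ⟨hvV, a, haK, haJ, hav⟩) hv

end Pool.Agent.H99.W
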